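import Pool.Agent.X144.MT.Core

/-!
# The extended recursion on lists and its shift-antisymmetry
-/

namespace Pool.Agent.X144.MT

/-- The extended sum of `A l` over the rows `l` above the row `k :: r`. -/
noncomputable def T (A : List ℤ → ℤ) (k : ℤ) : List ℤ → ℤ
  | [] => A []
  | k2 :: r => E (fun l => T (fun s => A (l :: s)) k2 r) k k2 + T (fun s => A (k2 :: s)) (k2 + 1) r

theorem T_nil (A : List ℤ → ℤ) (k : ℤ) : T A k [] = A [] := by
  simp [T]

theorem T_cons (A : List ℤ → ℤ) (k k2 : ℤ) (r : List ℤ) :
    T A k (k2 :: r) = E (fun l => T (fun s => A (l :: s)) k2 r) k k2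
      + T (fun s => A (k2 :: s)) (k2 + 1) r := by
  simp [T]

theorem T_add (r : List ℤ) : ∀ (A B : List ℤ → ℤ) (k : ℤ),
    T (fun s => A s + B s) k r = T A k r + T B k r := by
  induction r with
  | nil => intro A B k; simp [T]
  | cons k2 r ih =>
    intro A B k
    rw [T_cons, T_cons, T_cons, ih (fun s => A (k2 :: s)) (fun s => B (k2 :: s))]
    have h : ∀ l, T (fun s => A (l :: s) + B (l :: s)) k2 r
        = T (fun s => A (l :: s)) k2 r + T (fun s => B (l :: s)) k2 r :=
      fun l => ih (fun s => A (l :: s)) (fun s => B (l :: s)) k2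
    rw [E_congr h]
    simp only [E, P_add]; ring

theorem T_sub (r : List ℤ) : ∀ (A B : List ℤ → ℤ) (k : ℤ),
    T (fun s => A s - B s) k r = T A k r - T B k r := by
  induction r with
  | nil => intro A B k; simp [T]
  | cons k2 r ih =>
    intro A B k
    rw [T_cons, T_cons, T_cons, ih (fun s => A (k2 :: s)) (fun s => B (k2 :: s))]
    have h : ∀ l, T (fun s => A (l :: s) - B (l :: s)) k2 r
        = T (fun s => A (l :: s)) k2 r - T (fun s => B (l :: s)) k2 r :=
      fun l => ih (fun s => A (l :: s)) (fun s => B (l :: s)) k2
    rw [E_congr h]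
    simp only [E, P_sub]; ring

theorem T_zero (r : List ℤ) : ∀ (k : ℤ), T (fun _ => 0) k r = 0 := by
  induction r with
  | nil => intro k; simp [T]
  | cons k2 r ih =>
    intro k
    rw [T_cons, ih]
    simp only [ih, E, P_zero]; rfl

theorem T_congr {A B : List ℤ → ℤ} (k : ℤ) (r : List ℤ) (h : ∀ s, A s = B s) :
    T A k r = T B k r := by
  rw [funext h]

/-- `A` satisfies the relation `R` in every pair of adjacent arguments. -/
def RR (A : List ℤ → ℤ) : Prop := ∀ p s : List ℤ, R (fun x y => A (p ++ x :: y :: s))

theorem RR.cons {A : List ℤ → ℤ} (h : RR A) (l : ℤ) : RR (fun s => A (l :: s)) := by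
  intro p s
  exact h (l :: p) s

/-- A linear relation between values of `A` passes to `T`. -/
theorem R_T {F : ℤ → ℤ → List ℤ → ℤ} (h : ∀ s, R (fun x y => F x y s)) (k : ℤ) (r : List ℤ) :
    R (fun x y => T (F x y) k r) := by
  intro x y
  simp only [V]
  have h1 : T (fun s => (F x y s - F x (y + 1) s + F (x + 1) (y + 1) s)
      + (F y x s - F y (x + 1) s + F (y + 1) (x + 1) s)) k r = 0 := by
    rw [← T_zero r k]
    apply T_congr
    intro s
    exact h s x y
  rw [T_add, T_add, T_add, T_sub, T_sub] at h1
  exact h1

/-- The pair in front. -/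
theorem R_first {A : List ℤ → ℤ} (hA : RR A) (r : List ℤ) :
    R (fun x y => T A x (y :: r)) := by
  cases r with
  | nil =>
    intro x y
    simp only [V, T_cons, T_nil, E, P_succ]
    ring
  | cons z r' =>
    intro x y
    have hB : R (fun l l' => T (fun s => A (l :: l' :: s)) z r') :=
      R_T (F := fun l l' s => A (l :: l' :: s)) (fun s => hA [] s) z r'
    have h := R_sum hB x y
    simp only [V, T_cons, E, P_succ, P_add, P_sub] at h ⊢
    linear_combination (-1) * h

/-- The pair in second place. -/
theorem R_second {A : List ℤ → ℤ} (hA : RR A) (w : ℤ) (r : List ℤ) :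
    R (fun x y => T A w (x :: y :: r)) := by
  -- the function under the outer sum
  set G : ℤ → ℤ → ℤ → ℤ := fun l a b => T (fun s => A (l :: s)) a (b :: r) with hGdef
  have hGR : ∀ l, R (G l) := fun l => R_first (hA.cons l) r
  have key : ∀ x y, G x (x + 1) y + G (x + 1) (x + 1 + 1) (y + 1) + G y (y + 1) x
      + G (y + 1) (y + 1 + 1) (x + 1) - E (fun l => V (G l) x y) x y = 0 := by
    cases r with
    | nil =>
      refine R_case2 (B := fun _ _ _ => 0) (C := fun l l' => A [l, l']) ?_ ?_ ?_ 0 G ?_
      · intro m x y; simp [V]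
      · intro m x y; simp [V]
      · exact hA [] []
      · intro l a b
        simp only [hGdef, T_cons, T_nil, E, P_zero]
        simp
    | cons z r' =>
      refine R_case2 (B := fun l l' m => T (fun s => A (l :: l' :: m :: s)) z r')
        (C := fun l l' => T (fun s => A (l :: l' :: z :: s)) (z + 1) r') ?_ ?_ ?_ z G ?_
      · intro m
        exact R_T (F := fun l l' s => A (l :: l' :: m :: s)) (fun s => hA [] (m :: s)) z r'
      · intro l
        exact R_T (F := fun l' m s => A (l :: l' :: m :: s)) (fun s => hA [l] s) z r'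
      · exact R_T (F := fun l l' s => A (l :: l' :: z :: s)) (fun s => hA [] (z :: s)) (z + 1) r'
      · intro l a b
        simp only [hGdef, T_cons]
  intro x y
  have h1 := key x y
  have h2 : E (fun l => V (G l) x y) x y + E (fun l => V (G l) y x) x y = 0 := by
    have : E (fun l => V (G l) x y) x y + E (fun l => V (G l) y x) x y
        = E (fun l => V (G l) x y + V (G l) y x) x y := by
      simp only [E, P_add]; ring
    rw [this, E_congr (fun l => hGR l x y)]
    simp [E, P_zero]
  have hT : ∀ a b, T A w (a :: b :: r) = E (fun l => G l a b) w a + G a (a + 1) b := by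
    intro a b
    rw [T_cons]
  have h3 : E (fun l => V (G l) x y) w x + E (fun l => V (G l) y x) w x = 0 := by
    have : E (fun l => V (G l) x y) w x + E (fun l => V (G l) y x) w x
        = E (fun l => V (G l) x y + V (G l) y x) w x := by
      simp only [E, P_add]; ring
    rw [this, E_congr (fun l => hGR l x y)]
    simp [E, P_zero]
  simp only [hT]
  simp only [V, E, P_succ, P_add, P_sub] at h1 h2 h3 ⊢
  linear_combination h1 + h2 + h3

/-- Any pair behind the first entry. -/
theorem R_later : ∀ (p : List ℤ) {A : List ℤ → ℤ} (_ : RR A) (k : ℤ) (s : List ℤ),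
    R (fun x y => T A k (p ++ x :: y :: s)) := by
  intro p
  induction p with
  | nil => intro A hA k s; exact R_second hA k s
  | cons k2 p ih =>
    intro A hA k s x y
    have h1 : ∀ l, V (fun x y => T (fun s => A (l :: s)) k2 (p ++ x :: y :: s)) x y
        + V (fun x y => T (fun s => A (l :: s)) k2 (p ++ x :: y :: s)) y x = 0 :=
      fun l => ih (hA.cons l) k2 s x y
    have h2 := ih (hA.cons k2) (k2 + 1) s x y
    have h3 : E (fun l => V (fun x y => T (fun s => A (l :: s)) k2 (p ++ x :: y :: s)) x y
        + V (fun x y => T (fun s => A (l :: s)) k2 (p ++ x :: y :: s)) y x) k k2 = 0 := by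
      rw [E_congr h1]; simp [E, P_zero]
    simp only [List.cons_append, T_cons]
    simp only [V, E, P_add, P_sub] at h2 h3 ⊢
    linear_combination h2 + h3

/-- The extended sum over the rows above, as a function of the whole row. -/
noncomputable def SA (A : List ℤ → ℤ) : List ℤ → ℤ
  | [] => 0
  | k :: r => T A k r

theorem RR_step {A : List ℤ → ℤ} (hA : RR A) : RR (SA A) := by
  intro p s
  cases p with
  | nil => exact R_first hA s
  | cons k p => exact R_later p hA k s

/-- The monotone triangle function `α(m; l)` for rows `l` of length `m` (zero for rows of another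
length), given by extended summation. -/
noncomputable def al : ℕ → List ℤ → ℤ
  | 0 => fun l => if l = [] then 1 else 0
  | m + 1 => SA (al m)

theorem RR_al (m : ℕ) : RR (al m) := by
  induction m with
  | zero =>
    intro p s x y
    simp [V, al]
  | succ m ih => exact RR_step ih

end Pool.Agent.X144.MT
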