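import Pool.Agent.X144.MT.Hole

/-!
# Counting alternating sign matrices by the extended recursion
-/

namespace Pool.Agent.X144.MT

/-- The sum of the first `k` entries of `v`. -/
def part {n : ℕ} (v : Fin n → ℤ) (k : ℕ) : ℤ := ∑ t : Fin n, if (t : ℕ) < k then v t else 0

/-- The nonzero entries of `v` are alternately `1` and `-1`, beginning and ending with `1`;
equivalently the partial sums are `0` or `1` and the sum is `1`. -/
def Alt {n : ℕ} (v : Fin n → ℤ) : Prop :=
  (∀ k, part v k = 0 ∨ part v k = 1) ∧ ∑ t, v t = 1

/-- Alternating sign matrices. -/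
def IsASM {n : ℕ} (M : Matrix (Fin n) (Fin n) ℤ) : Prop :=
  (∀ i, Alt (fun j => M i j)) ∧ (∀ j, Alt (fun i => M i j))

theorem part_zero {n : ℕ} (v : Fin n → ℤ) : part v 0 = 0 := by simp [part]

theorem part_succ {n : ℕ} (v : Fin (n + 1) → ℤ) (k : ℕ) :
    part v (k + 1) = v 0 + part (fun t => v t.succ) k := by
  unfold part
  rw [Fin.sum_univ_succ]
  simp

theorem part_big {n : ℕ} (v : Fin n → ℤ) (k : ℕ) (hk : n ≤ k) : part v k = ∑ t, v t := by
  unfold part
  apply Finset.sum_congr rfl
  intro t _
  rw [if_pos (lt_of_lt_of_le t.2 hk)]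

/-- The state version. -/
def okd {n : ℕ} (d : ℤ) (v : Fin n → ℤ) : Prop :=
  (∀ k, d + part v k = 0 ∨ d + part v k = 1) ∧ d + ∑ t, v t = 1

theorem okd_zero {n : ℕ} (v : Fin n → ℤ) : okd 0 v ↔ Alt v := by
  simp [okd, Alt]

theorem okd_head {n : ℕ} {d : ℤ} {v : Fin n → ℤ} (h : okd d v) : d = 0 ∨ d = 1 := by
  have := h.1 0
  rw [part_zero, add_zero] at this
  exact this

theorem okd_nil (d : ℤ) (v : Fin 0 → ℤ) : okd d v ↔ d = 1 := by
  constructor
  · intro h
    have := h.2
    simpa using this
  · rintro rfl
    refine ⟨fun k => ?_, by simp⟩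
    right
    simp [part]

theorem okd_succ {n : ℕ} (d : ℤ) (v : Fin (n + 1) → ℤ) :
    okd d v ↔ (d = 0 ∨ d = 1) ∧ okd (d + v 0) (fun t => v t.succ) := by
  constructor
  · intro h
    refine ⟨okd_head h, fun k => ?_, ?_⟩
    · have := h.1 (k + 1)
      rw [part_succ, ← add_assoc] at this
      exact this
    · have := h.2
      rw [Fin.sum_univ_succ, ← add_assoc] at this
      exact this
  · rintro ⟨h0, h1, h2⟩
    refine ⟨fun k => ?_, ?_⟩
    · cases k with
      | zero => rw [part_zero, add_zero]; exact h0
      | succ k => rw [part_succ, ← add_assoc]; exact h1 k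
    · rw [Fin.sum_univ_succ, ← add_assoc]; exact h2

/-- The integer value of a truth value. -/
def bz (b : Bool) : ℤ := if b then 1 else 0

/-- The positions of the true entries, the first entry having position `p`. -/
def pos (p : ℤ) : {n : ℕ} → (Fin n → Bool) → List ℤ
  | 0, _ => []
  | _ + 1, w => if w 0 then p :: pos (p + 1) (fun t => w t.succ) else pos (p + 1) (fun t => w t.succ)

open Classical in
/-- The sum of `f (pos w')` over the vectors `w'` that can precede `w`. -/
noncomputable def U {n : ℕ} (d : ℤ) (f : List ℤ → ℤ) (p : ℤ) (w : Fin n → Bool) : ℤ :=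
  ∑ w' : Fin n → Bool, if okd d (fun t => bz (w t) - bz (w' t)) then f (pos p w') else 0

theorem sum_cons_bool {n : ℕ} (g : (Fin (n + 1) → Bool) → ℤ) :
    ∑ w, g w = ∑ u, g (Fin.cons true u) + ∑ u, g (Fin.cons false u) := by
  rw [← (Fin.consEquiv (fun _ => Bool)).sum_comp, Fintype.sum_prod_type]
  simp [Fin.consEquiv]

theorem U_succ {n : ℕ} (d : ℤ) (hd : d = 0 ∨ d = 1) (f : List ℤ → ℤ) (p : ℤ)
    (w : Fin (n + 1) → Bool) :
    U d f p w = U (d + bz (w 0) - 1) (fun s => f (p :: s)) (p + 1) (fun t => w t.succ)
      + U (d + bz (w 0)) f (p + 1) (fun t => w t.succ) := by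
  unfold U
  rw [sum_cons_bool]
  congr 1
  · apply Finset.sum_congr rfl
    intro u _
    have h : okd d (fun t => bz (w t) - bz ((Fin.cons true u : Fin (n + 1) → Bool) t))
        ↔ okd (d + bz (w 0) - 1) (fun t => bz (w t.succ) - bz (u t)) := by
      rw [okd_succ]
      simp only [Fin.cons_zero, Fin.cons_succ, hd, true_and, bz]
      simp only [if_true]
      rw [add_sub_assoc]
    have hp : pos p (Fin.cons true u : Fin (n + 1) → Bool) = p :: pos (p + 1) u := by
      simp [pos]
    by_cases hk : okd (d + bz (w 0) - 1) (fun t => bz (w t.succ) - bz (u t))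
    · rw [if_pos hk, if_pos (h.2 hk), hp]
    · rw [if_neg hk, if_neg (fun hh => hk (h.1 hh))]
  · apply Finset.sum_congr rfl
    intro u _
    have h : okd d (fun t => bz (w t) - bz ((Fin.cons false u : Fin (n + 1) → Bool) t))
        ↔ okd (d + bz (w 0)) (fun t => bz (w t.succ) - bz (u t)) := by
      rw [okd_succ]
      simp only [Fin.cons_zero, Fin.cons_succ, hd, true_and, bz]
      simp
    have hp : pos p (Fin.cons false u : Fin (n + 1) → Bool) = pos (p + 1) u := by
      simp [pos]
    by_cases hk : okd (d + bz (w 0)) (fun t => bz (w t.succ) - bz (u t))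
    · rw [if_pos hk, if_pos (h.2 hk), hp]
    · rw [if_neg hk, if_neg (fun hh => hk (h.1 hh))]

theorem U_bad {n : ℕ} (d : ℤ) (hd : ¬ (d = 0 ∨ d = 1)) (f : List ℤ → ℤ) (p : ℤ)
    (w : Fin n → Bool) : U d f p w = 0 := by
  unfold U
  apply Finset.sum_eq_zero
  intro w' _
  rw [if_neg]
  intro h
  exact hd (okd_head h)

theorem T_split (f : List ℤ → ℤ) (p : ℤ) (r : List ℤ) :
    T f p r = SA (fun s => f (p :: s)) r + T f (p + 1) r := by
  cases r with
  | nil => simp [T, SA]
  | cons k2 r =>
    simp only [T_cons, SA, E, P_succ]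
    ring

theorem U_eq {n : ℕ} : ∀ (f : List ℤ → ℤ) (p : ℤ) (w : Fin n → Bool),
    U 1 f p w = T f p (pos p w) ∧ U 0 f p w = SA f (pos p w) := by
  induction n with
  | zero =>
    intro f p w
    constructor
    · simp [U, okd_nil, pos, T]
    · simp [U, okd_nil, pos, SA]
  | succ n ih =>
    intro f p w
    have i1 := ih (fun s => f (p :: s)) (p + 1) (fun t => w t.succ)
    have i2 := ih f (p + 1) (fun t => w t.succ)
    rw [U_succ 1 (Or.inr rfl), U_succ 0 (Or.inl rfl)]
    cases h : w 0 with
    | true =>
      have hp : pos p w = p :: pos (p + 1) (fun t => w t.succ) := by simp [pos, h]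
      rw [hp]
      simp only [bz, if_true]
      norm_num
      rw [i1.1, i1.2, i2.1, U_bad 2 (by norm_num)]
      constructor
      · rw [T_cons]; simp [E]
      · rw [SA, T_split f p]
    | false =>
      have hp : pos p w = pos (p + 1) (fun t => w t.succ) := by simp [pos, h]
      rw [hp]
      simp only [bz]
      norm_num
      rw [i1.2, i2.1, i2.2, U_bad (-1) (by norm_num)]
      constructor
      · rw [T_split f p]
      · simp

/-- Arrays of `m` rows of length `n`: the rows are alternating, the partial column sums are `0` or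
`1` and the column sums are given by `w`. -/
def Arr {m n : ℕ} (w : Fin n → Bool) (M : Fin m → Fin n → ℤ) : Prop :=
  (∀ i, Alt (M i)) ∧ (∀ j k, part (fun i => M i j) k = 0 ∨ part (fun i => M i j) k = 1) ∧
    ∀ j, ∑ i, M i j = bz (w j)

open Classical in
/-- The finite set of these arrays. -/
noncomputable def AF : (m : ℕ) → {n : ℕ} → (Fin n → Bool) → Finset (Fin m → Fin n → ℤ)
  | 0, _, w => if (∀ j, w j = false) then {Fin.elim0} else ∅
  | m + 1, n, w => (Finset.univ.filter
      (fun w' : Fin n → Bool => okd 0 (fun t => bz (w t) - bz (w' t)))).biUnion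
      (fun w' => (AF m w').image
        (fun M => (Fin.snoc M (fun t => bz (w t) - bz (w' t)) : Fin (m + 1) → Fin n → ℤ)))

theorem bz_inj {b c : Bool} (h : bz b = bz c) : b = c := by
  cases b <;> cases c <;> simp [bz] at h ⊢

theorem bz_01 (b : Bool) : bz b = 0 ∨ bz b = 1 := by
  cases b <;> simp [bz]

theorem part_snoc {m : ℕ} (v : Fin (m + 1) → ℤ) (k : ℕ) :
    part v k = if k ≤ m then part (fun t => v t.castSucc) k else ∑ t, v t := by
  by_cases hk : k ≤ m
  · rw [if_pos hk]
    unfold part
    rw [Fin.sum_univ_castSucc]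
    simp [hk]
  · rw [if_neg hk]
    exact part_big v k (by omega)

theorem mem_AF : ∀ (m : ℕ) {n : ℕ} (w : Fin n → Bool) (M : Fin m → Fin n → ℤ),
    M ∈ AF m w ↔ Arr w M := by
  intro m
  induction m with
  | zero =>
    intro n w M
    have hM : M = Fin.elim0 := by funext i; exact i.elim0
    subst hM
    simp only [AF]
    split_ifs with h
    · simp only [Finset.mem_singleton, true_iff]
      refine ⟨fun i => i.elim0, fun j k => by left; simp [part], fun j => by simp [h j, bz]⟩
    · simp only [Finset.notMem_empty, false_iff]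
      rintro ⟨_, _, h3⟩
      apply h
      intro j
      have := h3 j
      simp only [Finset.univ_eq_empty, Finset.sum_empty] at this
      cases hb : w j with
      | false => rfl
      | true => rw [hb] at this; simp [bz] at this
  | succ m ih =>
    intro n w M
    simp only [AF, Finset.mem_biUnion, Finset.mem_filter, Finset.mem_univ, true_and,
      Finset.mem_image]
    constructor
    · rintro ⟨w', hw', M', hM', rfl⟩
      rw [ih] at hM'
      obtain ⟨h1, h2, h3⟩ := hM'
      have hsum : ∀ j, ∑ i, (Fin.snoc M' (fun t => bz (w t) - bz (w' t)) :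
          Fin (m + 1) → Fin n → ℤ) i j = bz (w j) := by
        intro j
        rw [Fin.sum_univ_castSucc]
        simp only [Fin.snoc_castSucc, Fin.snoc_last]
        rw [h3 j]; ring
      refine ⟨fun i => ?_, fun j k => ?_, hsum⟩
      · refine Fin.lastCases ?_ (fun i => ?_) i
        · rw [Fin.snoc_last]
          exact (okd_zero _).1 hw'
        · rw [Fin.snoc_castSucc]; exact h1 i
      · rw [part_snoc]
        split_ifs with hk
        · simp only [Fin.snoc_castSucc]
          exact h2 j k
        · rw [hsum]; exact bz_01 _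
    · rintro ⟨h1, h2, h3⟩
      -- the column sums of the first `m` rows
      have hc : ∀ j, ∃ b : Bool, ∑ i : Fin m, M i.castSucc j = bz b := by
        intro j
        have := h2 j m
        rw [part_snoc, if_pos le_rfl, part_big _ m le_rfl] at this
        rcases this with h | h
        · exact ⟨false, by rw [h]; simp [bz]⟩
        · exact ⟨true, by rw [h]; simp [bz]⟩
      choose w' hw' using hc
      have hlast : ∀ j, M (Fin.last m) j = bz (w j) - bz (w' j) := by
        intro j
        have := h3 j
        rw [Fin.sum_univ_castSucc, hw'] at this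
        linarith
      refine ⟨w', ?_, fun i => M i.castSucc, ?_, ?_⟩
      · rw [okd_zero]
        have := h1 (Fin.last m)
        rwa [show M (Fin.last m) = fun t => bz (w t) - bz (w' t) from funext hlast] at this
      · rw [ih]
        refine ⟨fun i => h1 i.castSucc, fun j k => ?_, hw'⟩
        by_cases hk : k ≤ m
        · have := h2 j k
          rw [part_snoc, if_pos hk] at this
          exact this
        · rw [part_big _ k (by omega), hw']; exact bz_01 _
      · funext i
        refine Fin.lastCases ?_ (fun i => ?_) i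
        · rw [Fin.snoc_last]; exact (funext hlast).symm
        · rw [Fin.snoc_castSucc]

theorem card_AF : ∀ (m : ℕ) {n : ℕ} (w : Fin n → Bool) (p : ℤ),
    ((AF m w).card : ℤ) = al m (pos p w) := by
  intro m
  induction m with
  | zero =>
    intro n w p
    have h : (∀ j, w j = false) ↔ pos p w = [] := by
      induction n generalizing p with
      | zero => simp [pos]
      | succ n ihn =>
        rw [Fin.forall_fin_succ]
        cases h0 : w 0 with
        | true => simp [pos, h0]
        | false =>
          simp only [pos, h0, true_and]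
          simp only [Bool.false_eq_true, if_false]
          exact ihn (fun t => w t.succ) (p + 1)
    simp only [AF, al]
    by_cases hh : ∀ j, w j = false
    · rw [if_pos hh, if_pos (h.1 hh)]; simp
    · rw [if_neg hh, if_neg (fun h' => hh (h.2 h'))]; simp
  | succ m ih =>
    intro n w p
    rw [AF, Finset.card_biUnion]
    · have h1 : al (m + 1) (pos p w) = U 0 (al m) p w := (U_eq (al m) p w).2.symm
      rw [h1, U, ← Finset.sum_filter]
      push_cast
      apply Finset.sum_congr rfl
      intro w' _
      rw [Finset.card_image_of_injective, ih w' p]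
      intro M M' hMM
      funext i
      have := congrFun hMM i.castSucc
      simpa using this
    · intro w1 _ w2 _ h12
      rw [Function.onFun, Finset.disjoint_left]
      intro M hM hM'
      rw [Finset.mem_image] at hM hM'
      obtain ⟨M1, _, rfl⟩ := hM
      obtain ⟨M2, _, h⟩ := hM'
      apply h12
      funext t
      have := congrFun (congrFun h (Fin.last m)) t
      simp only [Fin.snoc_last] at this
      apply bz_inj
      linarith

theorem pos_true : ∀ (n : ℕ) (p : ℤ), pos p (fun _ : Fin n => true) = iv p n := by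
  intro n
  induction n with
  | zero => intro p; rfl
  | succ n ih => intro p; simp only [pos, if_true, iv, ih]

/-- The number of alternating sign matrices of size `n` is `α(n; 1, ..., n)`. -/
theorem ncard_ASM (n : ℕ) :
    (({M : Matrix (Fin n) (Fin n) ℤ | IsASM M}.ncard : ℕ) : ℤ) = An n := by
  have h : {M : Fin n → Fin n → ℤ | IsASM M}
      = ((AF n (fun _ : Fin n => true) : Finset (Fin n → Fin n → ℤ)) :
        Set (Fin n → Fin n → ℤ)) := by
    ext M
    rw [Finset.mem_coe, mem_AF]
    constructor
    · rintro ⟨h1, h2⟩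
      exact ⟨h1, fun j k => (h2 j).1 k, fun j => by rw [(h2 j).2]; simp [bz]⟩
    · rintro ⟨h1, h2, h3⟩
      exact ⟨h1, fun j => ⟨h2 j, by rw [h3]; simp [bz]⟩⟩
  change ((({M : Fin n → Fin n → ℤ | IsASM M}).ncard : ℕ) : ℤ) = An n
  rw [h, Set.ncard_coe_finset, card_AF n _ 1, pos_true]
  rfl

end Pool.Agent.X144.MT
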