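import Mathlib

/-!
# Extended summation and the shift-antisymmetry of the monotone triangle polynomial

`P f a` is the primitive of `f`; `E f a b = P f b - P f a` is the extended sum of `f l` over
`a ≤ l < b`.  `T A k r` is the extended sum of `A l` over the rows `l` above the row `k :: r`.
The main result is `RR_step`: if `A` satisfies the relation
`f(x,y) - f(x,y+1) + f(x+1,y+1) + f(y,x) - f(y,x+1) + f(y+1,x+1) = 0` in all pairs of adjacent
arguments, so does the extended sum of `A` over the rows above.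
-/

namespace Pool.Agent.X144.MT

/-- The sum of `f l` over `0 ≤ l < a` (minus the sum over `a ≤ l < 0` for negative `a`). -/
noncomputable def P (f : ℤ → ℤ) (a : ℤ) : ℤ :=
  ∑ l ∈ Finset.Ico 0 a, f l - ∑ l ∈ Finset.Ico a 0, f l

theorem P_succ (f : ℤ → ℤ) (a : ℤ) : P f (a + 1) = P f a + f a := by
  unfold P
  rcases le_or_gt 0 a with h | h
  · have h1 : Finset.Ico 0 (a + 1) = insert a (Finset.Ico 0 a) := by
      ext t; simp only [Finset.mem_Ico, Finset.mem_insert]; omega
    have h2 : Finset.Ico (a + 1) 0 = ∅ := Finset.Ico_eq_empty (by omega)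
    have h3 : Finset.Ico a 0 = ∅ := Finset.Ico_eq_empty (by omega)
    rw [h1, h2, h3, Finset.sum_insert (by simp)]
    simp; ring
  · have h1 : Finset.Ico a 0 = insert a (Finset.Ico (a + 1) 0) := by
      ext t; simp only [Finset.mem_Ico, Finset.mem_insert]; omega
    have h2 : Finset.Ico 0 (a + 1) = ∅ := Finset.Ico_eq_empty (by omega)
    have h3 : Finset.Ico 0 a = ∅ := Finset.Ico_eq_empty (by omega)
    rw [h1, h2, h3, Finset.sum_insert (by simp)]
    simp

theorem P_add (f g : ℤ → ℤ) (a : ℤ) : P (fun l => f l + g l) a = P f a + P g a := by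
  simp only [P, Finset.sum_add_distrib]; ring

theorem P_sub (f g : ℤ → ℤ) (a : ℤ) : P (fun l => f l - g l) a = P f a - P g a := by
  simp only [P, Finset.sum_sub_distrib]; ring

theorem P_neg (f : ℤ → ℤ) (a : ℤ) : P (fun l => - f l) a = - P f a := by
  simp only [P, Finset.sum_neg_distrib]; ring

theorem P_zero (a : ℤ) : P (fun _ => 0) a = 0 := by
  simp [P]

theorem P_mul (c : ℤ) (f : ℤ → ℤ) (a : ℤ) : P (fun l => c * f l) a = c * P f a := by
  simp only [P, ← Finset.mul_sum]; ring

/-- The extended sum of `f l` over `a ≤ l < b`. -/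
noncomputable def E (f : ℤ → ℤ) (a b : ℤ) : ℤ := P f b - P f a

theorem P_comm (f : ℤ → ℤ → ℤ) (a b : ℤ) :
    P (fun l => P (fun m => f l m) b) a = P (fun m => P (fun l => f l m) a) b := by
  simp only [P, Finset.sum_sub_distrib]
  rw [Finset.sum_comm (s := Finset.Ico 0 a) (t := Finset.Ico 0 b),
    Finset.sum_comm (s := Finset.Ico 0 a) (t := Finset.Ico b 0),
    Finset.sum_comm (s := Finset.Ico a 0) (t := Finset.Ico 0 b),
    Finset.sum_comm (s := Finset.Ico a 0) (t := Finset.Ico b 0)]
  ring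

theorem E_shift (f : ℤ → ℤ) (a b : ℤ) : E (fun l => f (l + 1)) a b = E f (a + 1) (b + 1) := by
  have h : ∀ c : ℤ, P (fun l => f (l + 1)) c = P f (c + 1) - P f 1 := by
    intro c
    induction c using Int.induction_on with
    | zero => simp [P]
    | succ i ih =>
      rw [P_succ, ih, P_succ f (i + 1)]; ring
    | pred i ih =>
      have h1 := P_succ (fun l => f (l + 1)) (-(i : ℤ) - 1)
      have h2 := P_succ f (-(i : ℤ) - 1 + 1)
      have e1 : -(i : ℤ) - 1 + 1 = -i := by ring
      simp only [e1] at h1 h2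
      simp only [e1]
      linarith
  simp only [E, h]; ring

theorem E_congr {f g : ℤ → ℤ} (h : ∀ l, f l = g l) (a b : ℤ) : E f a b = E g a b := by
  rw [funext h]

theorem E_antisymm (W : ℤ → ℤ → ℤ) (h : ∀ l m, W l m + W m l = 0) (a b : ℤ) :
    E (fun l => E (fun m => W l m) a b) a b = 0 := by
  have h1 : E (fun l => E (fun m => W l m) a b) a b = E (fun m => E (fun l => W l m) a b) a b := by
    simp only [E, P_sub]
    rw [P_comm W b b, P_comm W b a, P_comm W a b, P_comm W a a]; ring
  have h2 : E (fun m => E (fun l => W l m) a b) a b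
      = E (fun m => E (fun l => - W m l) a b) a b := by
    apply E_congr; intro m; apply E_congr; intro l; linarith [h l m]
  have h3 : E (fun m => E (fun l => - W m l) a b) a b
      = - E (fun m => E (fun l => W m l) a b) a b := by
    simp only [E, P_neg, P_sub]
    ring
  linarith [h1, h2, h3]

/-- `V f x y = f(x,y) - f(x,y+1) + f(x+1,y+1)`. -/
def V (f : ℤ → ℤ → ℤ) (x y : ℤ) : ℤ := f x y - f x (y + 1) + f (x + 1) (y + 1)

/-- `R f`: the function `V f` is antisymmetric. -/
def R (f : ℤ → ℤ → ℤ) : Prop := ∀ x y, V f x y + V f y x = 0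

/-- The basic consequence of `R`. -/
theorem R_sum {b : ℤ → ℤ → ℤ} (hb : R b) (x y : ℤ) :
    E (fun l => b l x - b l y) x y + E (fun l => E (b l) (x + 1) (y + 1)) (x + 1) (y + 1) = 0 := by
  have h := E_antisymm (V b) hb x y
  have h1 : ∀ l, E (fun m => V b l m) x y = (b l x - b l y) + E (b (l + 1)) (x + 1) (y + 1) := by
    intro l
    have h2 := E_shift (b (l + 1)) x y
    have h3 := E_shift (b l) x y
    have h4 : E (fun m => V b l m) x y
        = E (b l) x y - E (fun m => b l (m + 1)) x y + E (fun m => b (l + 1) (m + 1)) x y := by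
      simp only [E, V, P_add, P_sub]; ring
    rw [h4, h2, h3]
    simp only [E, P_succ]; ring
  rw [E_congr h1] at h
  have h5 := E_shift (fun l => E (b l) (x + 1) (y + 1)) x y
  rw [← h5]
  rw [← h]
  simp only [E, P_add]; ring

/-- The same identity in the form needed for a constant third argument. -/
theorem R_bulk {a : ℤ → ℤ → ℤ} (ha : R a) (x y : ℤ) :
    E (a x) (x + 1) (y + 1) + E (a (x + 1)) (x + 1 + 1) (y + 1 + 1) + E (a y) (y + 1) (x + 1)
      + E (a (y + 1)) (y + 1 + 1) (x + 1 + 1) - E (fun l => E (a l) (x + 1) (y + 1)) x y = 0 := by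
  have h := R_sum ha x y
  have h' := R_sum ha (x + 1) (y + 1)
  simp only [E, P_succ, P_add, P_sub] at h h' ⊢
  linear_combination (-1) * h'

theorem E_comm (f : ℤ → ℤ → ℤ) (a b c d : ℤ) :
    E (fun m => E (fun l => f l m) a b) c d = E (fun l => E (fun m => f l m) c d) a b := by
  simp only [E, P_sub]
  rw [P_comm (fun l m => f l m) b d, P_comm (fun l m => f l m) b c,
    P_comm (fun l m => f l m) a d, P_comm (fun l m => f l m) a c]
  ring

/-- The eight-term identity for functions of three variables. -/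
theorem R_psi {B : ℤ → ℤ → ℤ → ℤ} (h12 : ∀ m, R (fun l l' => B l l' m)) (h23 : ∀ l, R (B l))
    (x y : ℤ) :
    B y y y - B x y y - B y x y - B y y x + B (y + 1) (y + 1) (y + 1)
      - B (x + 1) (y + 1) (y + 1) - B (y + 1) (x + 1) (y + 1) - B (y + 1) (y + 1) (x + 1) = 0 := by
  have a1 := h12 (y + 1) x y
  have a2 := h12 (x + 1) y y
  have a3 := h12 (y + 1) y y
  have b1 := h23 y x y
  have b2 := h23 x y y
  have b3 := h23 y y y
  simp only [V] at a1 a2 a3 b1 b2 b3
  have : 2 * (B y y y - B x y y - B y x y - B y y x + B (y + 1) (y + 1) (y + 1)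
      - B (x + 1) (y + 1) (y + 1) - B (y + 1) (x + 1) (y + 1) - B (y + 1) (y + 1) (x + 1))
      = 0 := by
    linear_combination (-2) * a1 - a2 + a3 - 2 * b1 - b2 + b3
  linarith

theorem R_case2 {B : ℤ → ℤ → ℤ → ℤ} {C : ℤ → ℤ → ℤ} (h12 : ∀ m, R (fun l l' => B l l' m))
    (h23 : ∀ l, R (B l)) (hC : R C) (z : ℤ) (G : ℤ → ℤ → ℤ → ℤ)
    (hG : ∀ l a b, G l a b = E (fun l' => E (B l l') b z + C l l') a b
      + (E (B l b) (b + 1) z + C l b)) (x y : ℤ) :
    G x (x + 1) y + G (x + 1) (x + 1 + 1) (y + 1) + G y (y + 1) x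
      + G (y + 1) (y + 1 + 1) (x + 1) - E (fun l => V (G l) x y) x y = 0 := by
  have hc := R_bulk hC x y
  have hm : E (fun m => E (fun l' => B x l' m) (x + 1) (y + 1)
      + E (fun l' => B (x + 1) l' m) (x + 1 + 1) (y + 1 + 1)
      + E (fun l' => B y l' m) (y + 1) (x + 1)
      + E (fun l' => B (y + 1) l' m) (y + 1 + 1) (x + 1 + 1)
      - E (fun l => E (fun l' => B l l' m) (x + 1) (y + 1)) x y) (y + 1) z = 0 := by
    have : (fun m => E (fun l' => B x l' m) (x + 1) (y + 1)
      + E (fun l' => B (x + 1) l' m) (x + 1 + 1) (y + 1 + 1)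
      + E (fun l' => B y l' m) (y + 1) (x + 1)
      + E (fun l' => B (y + 1) l' m) (y + 1 + 1) (x + 1 + 1)
      - E (fun l => E (fun l' => B l l' m) (x + 1) (y + 1)) x y) = fun _ => 0 := by
      funext m
      exact R_bulk (h12 m) x y
    rw [this]; simp [E, P_zero]
  have hm2 : E (fun l' => E (fun m => B x l' m) (y + 1) z) (x + 1) (y + 1)
      + E (fun l' => E (fun m => B (x + 1) l' m) (y + 1) z) (x + 1 + 1) (y + 1 + 1)
      + E (fun l' => E (fun m => B y l' m) (y + 1) z) (y + 1) (x + 1)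
      + E (fun l' => E (fun m => B (y + 1) l' m) (y + 1) z) (y + 1 + 1) (x + 1 + 1)
      - E (fun l => E (fun l' => E (fun m => B l l' m) (y + 1) z) (x + 1) (y + 1)) x y = 0 := by
    have e5 : E (fun l => E (fun l' => E (fun m => B l l' m) (y + 1) z) (x + 1) (y + 1)) x y
        = E (fun m => E (fun l => E (fun l' => B l l' m) (x + 1) (y + 1)) x y) (y + 1) z := by
      rw [E_comm (fun l m => E (fun l' => B l l' m) (x + 1) (y + 1)) x y (y + 1) z]
      apply E_congr; intro l
      rw [E_comm (fun l' m => B l l' m) (x + 1) (y + 1) (y + 1) z]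
    have e1 := E_comm (fun l' m => B x l' m) (x + 1) (y + 1) (y + 1) z
    have e2 := E_comm (fun l' m => B (x + 1) l' m) (x + 1 + 1) (y + 1 + 1) (y + 1) z
    have e3 := E_comm (fun l' m => B y l' m) (y + 1) (x + 1) (y + 1) z
    have e4 := E_comm (fun l' m => B (y + 1) l' m) (y + 1 + 1) (x + 1 + 1) (y + 1) z
    rw [e5, ← e1, ← e2, ← e3, ← e4, ← hm]
    simp only [E, P_add, P_sub]
    ring
  have r1 := R_sum (h23 y) x y
  have r2 := R_sum (h23 (y + 1)) (x + 1) (y + 1)
  have r3 := R_sum (h12 y) x y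
  have psi := R_psi h12 h23 x y
  clear hm
  simp only [hG, V, E, P_succ, P_add, P_sub] at hc hm2 r1 r2 r3 psi ⊢
  linear_combination hc + hm2 - r1 - r2 - r3 + psi

end Pool.Agent.X144.MT
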