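import Pool.Agent.X144.MT.Poly

/-!
# Counting monotone triangles
-/

namespace Pool.Agent.X144.MT

/-- The row `l` fits above the row `k`: it has one entry less and
`k_j ≤ l_j ≤ k_{j+1}` for every `j`. -/
def Above (l k : List ℤ) : Prop :=
  l.length + 1 = k.length ∧
    ∀ j < l.length, k.getD j 0 ≤ l.getD j 0 ∧ l.getD j 0 ≤ k.getD (j + 1) 0

theorem above_nil (k0 : ℤ) (r : List ℤ) : Above [] (k0 :: r) ↔ r = [] := by
  unfold Above
  constructor
  · rintro ⟨h, _⟩
    simp at h
    exact h
  · rintro rfl
    simp

theorem above_cons (a : ℤ) (l : List ℤ) (k0 k1 : ℤ) (r : List ℤ) :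
    Above (a :: l) (k0 :: k1 :: r) ↔ (k0 ≤ a ∧ a ≤ k1) ∧ Above l (k1 :: r) := by
  unfold Above
  constructor
  · rintro ⟨h, h2⟩
    refine ⟨?_, ?_, ?_⟩
    · simpa using h2 0 (by simp)
    · simpa using h
    · intro j hj
      simpa using h2 (j + 1) (by simpa using hj)
  · rintro ⟨h1, h, h2⟩
    refine ⟨by simpa using h, ?_⟩
    intro j hj
    cases j with
    | zero => simpa using h1
    | succ j => simpa using h2 j (by simpa using hj)

theorem above_singleton (l : List ℤ) (k0 : ℤ) : Above l [k0] ↔ l = [] := by
  unfold Above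
  constructor
  · rintro ⟨h, _⟩
    simp at h
    exact h
  · rintro rfl
    simp

theorem Above.le {l : List ℤ} {k : ℤ} {r : List ℤ} (h : Above l (k :: r))
    (hl : l.Pairwise (· < ·)) : ∀ x ∈ l, k ≤ x := by
  cases l with
  | nil => simp
  | cons a l =>
    cases r with
    | nil => rw [above_singleton] at h; simp at h
    | cons k1 r =>
      rw [above_cons] at h
      intro x hx
      rw [List.pairwise_cons] at hl
      rcases List.mem_cons.1 hx with rfl | hx
      · exact h.1.1
      · exact le_trans h.1.1 (hl.1 x hx).le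

/-- The rows above the row `k0 :: r`. -/
noncomputable def RF : ℤ → List ℤ → Finset (List ℤ)
  | _, [] => {[]}
  | k0, k1 :: r => ((Finset.Ico k0 k1).biUnion fun l => (RF k1 r).image (fun s => l :: s))
      ∪ (RF (k1 + 1) r).image (fun s => k1 :: s)

/-- The hypothesis `k0 ≤ r_1 < r_2 < ...`. -/
def Wk (k0 : ℤ) (r : List ℤ) : Prop := (∀ x ∈ r, k0 ≤ x) ∧ r.Pairwise (· < ·)

theorem Wk.tail {k0 k1 : ℤ} {r : List ℤ} (h : Wk k0 (k1 :: r)) :
    k0 ≤ k1 ∧ Wk k1 r ∧ Wk (k1 + 1) r := by
  obtain ⟨h1, h2⟩ := h
  rw [List.pairwise_cons] at h2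
  refine ⟨h1 k1 (by simp), ⟨fun x hx => (h2.1 x hx).le, h2.2⟩, ⟨fun x hx => ?_, h2.2⟩⟩
  have := h2.1 x hx
  omega

theorem mem_RF : ∀ (r : List ℤ) (k0 : ℤ), Wk k0 r → ∀ l : List ℤ,
    l ∈ RF k0 r ↔ (Above l (k0 :: r) ∧ l.Pairwise (· < ·)) := by
  intro r
  induction r with
  | nil =>
    intro k0 _ l
    simp only [RF, Finset.mem_singleton, above_singleton]
    constructor
    · rintro rfl; simp
    · rintro ⟨h, _⟩; exact h
  | cons k1 r ih =>
    intro k0 hW l
    obtain ⟨h01, hW1, hW2⟩ := hW.tail
    simp only [RF, Finset.mem_union, Finset.mem_biUnion, Finset.mem_Ico, Finset.mem_image]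
    constructor
    · rintro (⟨a, ha, l', hl', rfl⟩ | ⟨l', hl', rfl⟩)
      · rw [ih k1 hW1] at hl'
        refine ⟨(above_cons _ _ _ _ _).2 ⟨⟨ha.1, ha.2.le⟩, hl'.1⟩, ?_⟩
        rw [List.pairwise_cons]
        exact ⟨fun x hx => lt_of_lt_of_le ha.2 (hl'.1.le hl'.2 x hx), hl'.2⟩
      · rw [ih (k1 + 1) hW2] at hl'
        have hle := hl'.1.le hl'.2
        refine ⟨(above_cons _ _ _ _ _).2 ⟨⟨h01, le_refl _⟩, ?_⟩, ?_⟩
        · cases l' with
          | nil => rw [above_nil] at hl' ⊢; exact hl'.1
          | cons b l' =>
            cases r with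
            | nil => rw [above_singleton] at hl'; simp at hl'
            | cons k2 r =>
              have h := hl'.1
              rw [above_cons] at h ⊢
              exact ⟨⟨by linarith [h.1.1], h.1.2⟩, h.2⟩
        · rw [List.pairwise_cons]
          refine ⟨fun x hx => ?_, hl'.2⟩
          have := hle x hx
          omega
    · rintro ⟨hA, hP⟩
      cases l with
      | nil => rw [above_nil] at hA; simp at hA
      | cons a l' =>
        rw [above_cons] at hA
        rw [List.pairwise_cons] at hP
        rcases lt_or_eq_of_le hA.1.2 with h | h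
        · left
          exact ⟨a, ⟨hA.1.1, h⟩, l', (ih k1 hW1 l').2 ⟨hA.2, hP.2⟩, rfl⟩
        · right
          refine ⟨l', (ih (k1 + 1) hW2 l').2 ⟨?_, hP.2⟩, by rw [h]⟩
          cases l' with
          | nil =>
            have h2 := hA.2
            rw [above_nil] at h2 ⊢
            exact h2
          | cons b l' =>
            cases r with
            | nil => have h2 := hA.2; rw [above_singleton] at h2; simp at h2
            | cons k2 r =>
              have h2 := hA.2
              rw [above_cons] at h2 ⊢
              have h3 := hP.1 b (by simp)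
              exact ⟨⟨by omega, h2.1.2⟩, h2.2⟩

theorem E_eq_sum (f : ℤ → ℤ) {a b : ℤ} (h : a ≤ b) : E f a b = ∑ l ∈ Finset.Ico a b, f l := by
  induction b, h using Int.le_induction with
  | base => simp [E]
  | succ b hab ih =>
    have h1 : Finset.Ico a (b + 1) = insert b (Finset.Ico a b) := by
      ext t; simp only [Finset.mem_Ico, Finset.mem_insert]; omega
    rw [h1, Finset.sum_insert (by simp), ← ih]
    simp only [E, P_succ]; ring

theorem T_eq_sum : ∀ (r : List ℤ) (A : List ℤ → ℤ) (k0 : ℤ), Wk k0 r →
    T A k0 r = ∑ l ∈ RF k0 r, A l := by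
  intro r
  induction r with
  | nil => intro A k0 _; simp [T, RF]
  | cons k1 r ih =>
    intro A k0 hW
    obtain ⟨h01, hW1, hW2⟩ := hW.tail
    rw [T_cons, E_eq_sum _ h01, ih _ _ hW2, RF, Finset.sum_union, Finset.sum_image,
      Finset.sum_biUnion]
    · congr 1
      apply Finset.sum_congr rfl
      intro l _
      rw [ih _ _ hW1, Finset.sum_image]
      intro a _ b _ hab
      simpa using hab
    · intro a _ b _ hab
      rw [Function.onFun, Finset.disjoint_left]
      intro s hs hs'
      rw [Finset.mem_image] at hs hs'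
      obtain ⟨u, _, rfl⟩ := hs
      obtain ⟨v, _, hv⟩ := hs'
      simp at hv
      exact hab hv.1.symm
    · intro a _ b _ hab
      simpa using hab
    · rw [Finset.disjoint_left]
      intro s hs hs'
      simp only [Finset.mem_biUnion, Finset.mem_image, Finset.mem_Ico] at hs hs'
      obtain ⟨a, ha, u, _, rfl⟩ := hs
      obtain ⟨v, _, hv⟩ := hs'
      simp at hv
      omega

theorem Wk_of_pairwise {k0 : ℤ} {r : List ℤ} (h : (k0 :: r).Pairwise (· < ·)) : Wk k0 r := by
  rw [List.pairwise_cons] at h
  exact ⟨fun x hx => (h.1 x hx).le, h.2⟩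

/-- `IsMT (k :: t)`: the rows `k` (bottom row), then the entries of `t` (going up) form a monotone
triangle: every row is strictly increasing, every row fits above the next lower one, and the top
row has one entry. -/
def IsMT : List (List ℤ) → Prop
  | [] => False
  | [k] => k.length = 1
  | k :: l :: t => k.Pairwise (· < ·) ∧ Above l k ∧ IsMT (l :: t)

/-- The number of monotone triangles with bottom row `k`. -/
noncomputable def numMT (k : List ℤ) : ℕ := {t : List (List ℤ) | IsMT (k :: t)}.ncard

/-- The finite set of monotone triangles with bottom row `k0 :: r`. -/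
noncomputable def MTF : ℕ → List ℤ → Finset (List (List ℤ))
  | 0, _ => {[]}
  | _ + 1, [] => ∅
  | m + 1, k0 :: r => (RF k0 r).biUnion fun l => (MTF m l).image (fun t => l :: t)

theorem mem_MTF : ∀ (m : ℕ) (k : List ℤ), k.length = m + 1 → k.Pairwise (· < ·) →
    ∀ t, t ∈ MTF m k ↔ IsMT (k :: t) := by
  intro m
  induction m with
  | zero =>
    intro k hk hP t
    simp only [MTF, Finset.mem_singleton]
    constructor
    · rintro rfl; simpa [IsMT] using hk
    · intro h
      cases t with
      | nil => rfl
      | cons l t =>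
        exfalso
        have h2 : IsMT (l :: t) := h.2.2
        have h1 := h.2.1.1
        have hl : l = [] := List.length_eq_zero_iff.1 (by omega)
        subst hl
        cases t with
        | nil => simp [IsMT] at h2
        | cons l' t => have := h2.2.1.1; simp at this
  | succ m ih =>
    intro k hk hP t
    cases k with
    | nil => simp at hk
    | cons k0 r =>
    have hW := Wk_of_pairwise hP
    simp only [MTF, Finset.mem_biUnion, Finset.mem_image]
    constructor
    · rintro ⟨l, hl, t', ht', rfl⟩
      rw [mem_RF r k0 hW] at hl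
      have hlen : l.length = m + 1 := by have := hl.1.1; omega
      rw [ih l hlen hl.2] at ht'
      exact ⟨hP, hl.1, ht'⟩
    · intro h
      cases t with
      | nil => have h' : (k0 :: r).length = 1 := h; omega
      | cons l t =>
        have hlen : l.length = m + 1 := by have := h.2.1.1; omega
        have hlP : l.Pairwise (· < ·) := by
          have h2 : IsMT (l :: t) := h.2.2
          cases t with
          | nil =>
            have h3 : l.length = 1 := h2
            obtain ⟨a, rfl⟩ := List.length_eq_one_iff.1 h3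
            simp
          | cons l' t => exact h2.1
        exact ⟨l, (mem_RF r k0 hW l).2 ⟨h.2.1, hlP⟩, t, (ih l hlen hlP t).2 h.2.2, rfl⟩

theorem card_MTF : ∀ (m : ℕ) (k : List ℤ), k.length = m + 1 → k.Pairwise (· < ·) →
    ((MTF m k).card : ℤ) = al (m + 1) k := by
  intro m
  induction m with
  | zero =>
    intro k hk _
    obtain ⟨a, rfl⟩ := List.length_eq_one_iff.1 hk
    simp [MTF, al, SA, T]
  | succ m ih =>
    intro k hk hP
    cases k with
    | nil => simp at hk
    | cons k0 r =>
    have hW := Wk_of_pairwise hP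
    have h1 : al (m + 1 + 1) (k0 :: r) = T (al (m + 1)) k0 r := rfl
    rw [h1, T_eq_sum r _ k0 hW, MTF, Finset.card_biUnion]
    · push_cast
      apply Finset.sum_congr rfl
      intro l hl
      rw [mem_RF r k0 hW] at hl
      have hlen : l.length = m + 1 := by have := hl.1.1; omega
      rw [Finset.card_image_of_injective _ (fun a b hab => by simpa using hab), ih l hlen hl.2]
    · intro a _ b _ hab
      rw [Function.onFun, Finset.disjoint_left]
      intro s hs hs'
      rw [Finset.mem_image] at hs hs'
      obtain ⟨u, _, rfl⟩ := hs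
      obtain ⟨v, _, hv⟩ := hs'
      simp at hv
      exact hab hv.1.symm

/-- On strictly increasing rows `al` counts monotone triangles. -/
theorem al_eq_numMT (m : ℕ) (k : List ℤ) (hk : k.length = m + 1) (hP : k.Pairwise (· < ·)) :
    al (m + 1) k = numMT k := by
  rw [← card_MTF m k hk hP, numMT]
  have : {t : List (List ℤ) | IsMT (k :: t)} = ↑(MTF m k) := by
    ext t
    rw [Finset.mem_coe]
    exact (mem_MTF m k hk hP t).symm
  rw [this, Set.ncard_coe_finset]

end Pool.Agent.X144.MT
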