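import Pool.Agent.X144.MT.Asm

/-!
# The monotone triangle polynomial, refined enumeration of alternating sign matrices
-/

namespace Pool.Agent.X144.MT

open MvPolynomial

/-- `P` is the monotone triangle polynomial in `n` variables. -/
def IsAlpha {n : ℕ} (P : MvPolynomial (Fin n) ℚ) : Prop :=
  ∀ k : Fin n → ℤ, StrictMono k → eval (fun i => (k i : ℚ)) P = numMT (List.ofFn k)

theorem pairwise_ofFn_strict {n : ℕ} {k : Fin n → ℤ} (hk : StrictMono k) :
    (List.ofFn k).Pairwise (· < ·) := by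
  rw [List.pairwise_ofFn]
  intro i j hij
  exact hk hij

/-- Existence of the monotone triangle polynomial, with its values given by `al`. -/
theorem exists_alpha (n : ℕ) : ∃ Q : MvPolynomial (Fin (n + 1)) ℚ, IsAlpha Q ∧
    ∀ k : Fin (n + 1) → ℤ, (al (n + 1) (List.ofFn k) : ℚ) = eval (fun i => (k i : ℚ)) Q := by
  obtain ⟨Q, hQ⟩ := (PL_al (n + 1)).exists_poly
  refine ⟨Q, fun k hk => ?_, hQ⟩
  rw [← hQ, al_eq_numMT n _ (by simp) (pairwise_ofFn_strict hk)]
  simp

theorem IsAlpha.unique {n : ℕ} {P Q : MvPolynomial (Fin n) ℚ} (hP : IsAlpha P) (hQ : IsAlpha Q) :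
    P = Q := by
  have : P - Q = 0 := by
    apply eq_zero_of_strictMono
    intro k hk
    rw [map_sub, hP k hk, hQ k hk, sub_self]
  exact sub_eq_zero.1 this

/-- The values of the monotone triangle polynomial are given by the extended recursion. -/
theorem IsAlpha.eval_eq {n : ℕ} {P : MvPolynomial (Fin (n + 1)) ℚ} (hP : IsAlpha P)
    (k : Fin (n + 1) → ℤ) : eval (fun i => (k i : ℚ)) P = al (n + 1) (List.ofFn k) := by
  obtain ⟨Q, hQ, hQ2⟩ := exists_alpha n
  rw [hP.unique hQ, ← hQ2]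

theorem existsUnique_alpha (n : ℕ) : ∃! P : MvPolynomial (Fin (n + 1)) ℚ, IsAlpha P := by
  obtain ⟨Q, hQ, _⟩ := exists_alpha n
  exact ⟨Q, hQ, fun P hP => hP.unique hQ⟩

/-- The number of alternating sign matrices of size `n`. -/
noncomputable def numASM (n : ℕ) : ℕ := {M : Matrix (Fin n) (Fin n) ℤ | IsASM M}.ncard

/-- The number of alternating sign matrices of size `n` whose first row has its `1` in column `j`
(columns are numbered from `1` to `n`). -/
noncomputable def refASM (n j : ℕ) : ℕ :=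
  {M : Matrix (Fin n) (Fin n) ℤ | IsASM M ∧ ∃ r c : Fin n, (r : ℕ) = 0 ∧ (c : ℕ) + 1 = j ∧
    M r c = 1}.ncard

/-! ### Reflection of alternating sign matrices -/

theorem part_rev {n : ℕ} (v : Fin n → ℤ) (k : ℕ) :
    part (fun t => v t.rev) k = ∑ t, v t - part v (n - k) := by
  unfold part
  rw [← Finset.sum_sub_distrib, ← Equiv.sum_comp (Fin.revPerm (n := n))]
  apply Finset.sum_congr rfl
  intro t _
  simp only [Fin.revPerm_apply, Fin.rev_rev, Fin.val_rev]
  by_cases h : (t : ℕ) < n - k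
  · rw [if_neg (by omega), if_pos h]; ring
  · rw [if_pos (by have := t.2; omega), if_neg h]; ring

theorem Alt.rev {n : ℕ} {v : Fin n → ℤ} (h : Alt v) : Alt (fun t => v t.rev) := by
  refine ⟨fun k => ?_, ?_⟩
  · rw [part_rev, h.2]
    rcases h.1 (n - k) with h1 | h1
    · right; rw [h1]; ring
    · left; rw [h1]; ring
  · have := Equiv.sum_comp (Fin.revPerm (n := n)) v
    simp only [Fin.revPerm_apply] at this
    rw [this, h.2]

/-- Reversing every row. -/
def rv {n : ℕ} (M : Matrix (Fin n) (Fin n) ℤ) : Matrix (Fin n) (Fin n) ℤ := fun i j => M i j.rev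

theorem rv_rv {n : ℕ} (M : Matrix (Fin n) (Fin n) ℤ) : rv (rv M) = M := by
  funext i j
  simp [rv]

theorem IsASM.rv {n : ℕ} {M : Matrix (Fin n) (Fin n) ℤ} (h : IsASM M) : IsASM (rv M) :=
  ⟨fun i => (h.1 i).rev, fun j => h.2 j.rev⟩

/-- The refined number with a column index in `Fin`. -/
noncomputable def cF {n : ℕ} (c : Fin (n + 1)) : ℕ :=
  {M : Matrix (Fin (n + 1)) (Fin (n + 1)) ℤ | IsASM M ∧ M 0 c = 1}.ncard

theorem refASM_eq {n : ℕ} (c : Fin (n + 1)) : refASM (n + 1) ((c : ℕ) + 1) = cF c := by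
  unfold refASM cF
  congr 1
  ext M
  constructor
  · rintro ⟨h, r, c', hr, hc, h1⟩
    have e1 : r = 0 := Fin.ext (by simpa using hr)
    have e2 : c' = c := Fin.ext (by omega)
    subst e1; subst e2
    exact ⟨h, h1⟩
  · rintro ⟨h, h1⟩
    exact ⟨h, 0, c, by simp, rfl, h1⟩

theorem cF_rev {n : ℕ} (c : Fin (n + 1)) : cF c.rev = cF c := by
  unfold cF
  have : {M : Matrix (Fin (n + 1)) (Fin (n + 1)) ℤ | IsASM M ∧ M 0 c.rev = 1}
      = rv '' {M : Matrix (Fin (n + 1)) (Fin (n + 1)) ℤ | IsASM M ∧ M 0 c = 1} := by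
    ext M
    constructor
    · rintro ⟨h, h1⟩
      exact ⟨rv M, ⟨h.rv, h1⟩, rv_rv M⟩
    · rintro ⟨M', ⟨h, h1⟩, rfl⟩
      refine ⟨h.rv, ?_⟩
      simpa [MT.rv] using h1
  rw [this, Set.ncard_image_of_injective]
  intro A B hAB
  rw [← rv_rv A, hAB, rv_rv]

theorem finite_ASM (n : ℕ) : {M : Matrix (Fin n) (Fin n) ℤ | IsASM M}.Finite := by
  have h : {M : Fin n → Fin n → ℤ | IsASM M}
      = ((AF n (fun _ : Fin n => true) : Finset (Fin n → Fin n → ℤ)) :
        Set (Fin n → Fin n → ℤ)) := by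
    ext M
    rw [Finset.mem_coe, mem_AF]
    constructor
    · rintro ⟨h1, h2⟩
      exact ⟨h1, fun j k => (h2 j).1 k, fun j => by rw [(h2 j).2]; simp [bz]⟩
    · rintro ⟨h1, h2, h3⟩
      exact ⟨h1, fun j => ⟨h2 j, by rw [h3]; simp [bz]⟩⟩
  change {M : Fin n → Fin n → ℤ | IsASM M}.Finite
  rw [h]
  exact Finset.finite_toSet _

theorem first_row {n : ℕ} {M : Matrix (Fin (n + 1)) (Fin (n + 1)) ℤ} (h : IsASM M)
    (c : Fin (n + 1)) : M 0 c = 0 ∨ M 0 c = 1 := by
  have := (h.2 c).1 1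
  rw [part_succ, part_zero, add_zero] at this
  exact this

open Classical in
theorem sum_cF (n : ℕ) : ∑ c : Fin (n + 1), cF c = numASM (n + 1) := by
  set S := (finite_ASM (n + 1)).toFinset with hS
  have hmem : ∀ M, M ∈ S ↔ IsASM M := by
    intro M
    rw [hS, Set.Finite.mem_toFinset]
    rfl
  have h1 : numASM (n + 1) = S.card := by
    unfold numASM
    rw [Set.ncard_eq_toFinset_card _ (finite_ASM (n + 1))]
  have h2 : ∀ c : Fin (n + 1), cF c = (S.filter (fun M => M 0 c = 1)).card := by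
    intro c
    unfold cF
    rw [← Set.ncard_coe_finset]
    congr 1
    ext M
    rw [Finset.mem_coe, Finset.mem_filter, hmem]
    rfl
  rw [h1]
  simp only [h2]
  have h3 : ∀ M ∈ S, ∑ c : Fin (n + 1), (if M 0 c = 1 then 1 else 0 : ℤ) = 1 := by
    intro M hM
    rw [hmem] at hM
    have e : ∀ c : Fin (n + 1), (if M 0 c = 1 then 1 else 0 : ℤ) = M 0 c := by
      intro c
      rcases first_row hM c with h | h
      · simp [h]
      · simp [h]
    rw [Finset.sum_congr rfl (fun c _ => e c)]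
    exact (hM.1 0).2
  have h4 : ((∑ c : Fin (n + 1), (S.filter (fun M => M 0 c = 1)).card : ℕ) : ℤ) = (S.card : ℤ) := by
    push_cast
    have h5 : ∀ c : Fin (n + 1), ((S.filter (fun M => M 0 c = 1)).card : ℤ)
        = ∑ M ∈ S, (if M 0 c = 1 then 1 else 0 : ℤ) := by
      intro c
      rw [Finset.card_filter]
      push_cast
      rfl
    simp only [h5]
    rw [Finset.sum_comm, Finset.sum_congr rfl h3]
    simp
  exact_mod_cast h4

theorem sum_Icc_eq (n : ℕ) (f : ℕ → ℚ) :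
    ∑ j ∈ Finset.Icc 1 n, f j = ∑ c : Fin n, f ((c : ℕ) + 1) := by
  rw [← Finset.sum_range (fun c => f (c + 1))]
  rw [show Finset.Icc 1 n = Finset.Ico 1 (n + 1) from by ext; simp only [Finset.mem_Icc, Finset.mem_Ico]; omega]
  rw [Finset.sum_Ico_eq_sum_range]
  simp [add_comm]

/-- The refined enumeration sum. -/
theorem sum_refASM (n i : ℕ) : 2 * ∑ j ∈ Finset.Icc 1 (n + 1), ((i : ℚ) - j) * refASM (n + 1) j
    = (2 * i - (n + 1) - 1) * numASM (n + 1) := by
  rw [sum_Icc_eq]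
  simp only [refASM_eq]
  have h1 : (∑ c : Fin (n + 1), (cF c : ℚ)) = numASM (n + 1) := by
    exact_mod_cast sum_cF n
  have h2 : ∑ c : Fin (n + 1), ((i : ℚ) - ((c : ℕ) + 1 : ℕ)) * cF c
      = ∑ c : Fin (n + 1), ((i : ℚ) - ((n : ℚ) + 1 - (c : ℕ))) * cF c := by
    rw [← Equiv.sum_comp (Fin.revPerm (n := n + 1))]
    apply Finset.sum_congr rfl
    intro c _
    rw [Fin.revPerm_apply, cF_rev, Fin.val_rev]
    have hc := c.2
    have h3 : ((n + 1 - ((c : ℕ) + 1) + 1 : ℕ) : ℚ) = (n : ℚ) + 1 - (c : ℕ) := by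
      have h4 : n + 1 - ((c : ℕ) + 1) + 1 = n + 1 - (c : ℕ) := by omega
      rw [h4, Nat.cast_sub (by omega)]
      push_cast; ring
    rw [h3]
  have h5 : 2 * ∑ c : Fin (n + 1), ((i : ℚ) - ((c : ℕ) + 1 : ℕ)) * cF c
      = ∑ c : Fin (n + 1), (2 * (i : ℚ) - (n + 1) - 1) * cF c := by
    rw [two_mul]
    nth_rw 2 [h2]
    rw [← Finset.sum_add_distrib]
    apply Finset.sum_congr rfl
    intro c _
    push_cast
    ring
  rw [h5, ← Finset.mul_sum, h1]

end Pool.Agent.X144.MT
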