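import Pool.Agent.X144.MT.Refl

/-!
# The value of `al` at a row with one hole and one descent
-/

namespace Pool.Agent.X144.MT

/-- The list `a, a+1, ..., a+w-1`. -/
def iv (a : ℤ) : ℕ → List ℤ
  | 0 => []
  | w + 1 => a :: iv (a + 1) w

theorem iv_length (w : ℕ) : ∀ a, (iv a w).length = w := by
  induction w with
  | zero => intro a; rfl
  | succ w ih => intro a; simp [iv, ih]

theorem iv_snoc (w : ℕ) : ∀ a, iv a (w + 1) = iv a w ++ [a + w] := by
  induction w with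
  | zero => intro a; simp [iv]
  | succ w ih =>
    intro a
    rw [iv, ih (a + 1), iv]
    simp only [List.cons_append]
    congr 3
    push_cast
    ring

theorem iv_cons {a x b : ℤ} (w : ℕ) (h : a = x) (h' : a + 1 = b) :
    iv a (w + 1) = x :: iv b w := by
  subst h; subst h'; rfl

theorem T_iv (w : ℕ) : ∀ (A : List ℤ → ℤ) (k : ℤ), T A k (iv k w) = A (iv k w) := by
  induction w with
  | zero => intro A k; simp [iv, T]
  | succ w ih =>
    intro A k
    simp only [iv, T_cons]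
    rw [ih]
    simp [E]

/-- `An n = α(n; 1, 2, ..., n)`. -/
noncomputable def An (n : ℕ) : ℤ := al n (iv 1 n)

/-- The value at `1, ..., u, u+1, u+1, u+2, ..., u+1+w`. -/
noncomputable def D (u w : ℕ) : ℤ :=
  al (u + w + 2) (iv 1 u ++ ((u : ℤ) + 1) :: ((u : ℤ) + 1) :: iv ((u : ℤ) + 2) w)

theorem D_zero (w : ℕ) : D 0 w = An (w + 1) := by
  unfold D An
  simp only [iv, List.nil_append, Nat.cast_zero, zero_add]
  exact T_iv (w + 1) (al (w + 1)) 1

theorem D_step (u v : ℕ) : D u (v + 1) = D (u + 1) v := by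
  have h := al_001_011 (u + v + 3) (iv 1 u) (iv ((u : ℤ) + 3) v)
    (by rw [iv_length, iv_length]) ((u : ℤ) + 1)
  unfold D
  rw [iv_snoc u 1]
  have e1 : u + (v + 1) + 2 = u + v + 3 := by ring
  have e2 : u + 1 + v + 2 = u + v + 3 := by ring
  have e3 : iv ((u : ℤ) + 2) (v + 1) = ((u : ℤ) + 1 + 1) :: iv ((u : ℤ) + 3) v :=
    iv_cons v (by ring) (by ring)
  rw [e1, e2, e3, h]
  push_cast
  simp only [List.append_assoc, List.cons_append, List.nil_append]
  have e4 : (1 : ℤ) + u = u + 1 := by ring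
  have e5 : (u : ℤ) + 1 + 2 = u + 3 := by ring
  rw [e4, e5]

theorem D_eq (u : ℕ) : ∀ w, D u w = An (u + w + 1) := by
  induction u with
  | zero => intro w; rw [D_zero]; congr 1; ring
  | succ u ih =>
    intro w
    rw [← D_step, ih]
    congr 1; ring

/-- The value at the row with the hole and the descent. -/
noncomputable def a (u v : ℕ) : ℤ :=
  al (u + v + 3) (iv 1 u ++ ((u : ℤ) + 2) :: ((u : ℤ) + 1) :: ((u : ℤ) + 2) :: iv ((u : ℤ) + 3) v)

/-- The reflected value. -/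
noncomputable def b (u v : ℕ) : ℤ :=
  al (u + v + 3) (iv 1 u ++ ((u : ℤ) + 1) :: ((u : ℤ) + 2) :: ((u : ℤ) + 1) :: iv ((u : ℤ) + 3) v)

theorem a_add_b (u v : ℕ) : a u v + b u v = - An (u + v + 2) := by
  have hlen : u + v + 3 = (iv 1 u).length + (iv ((u : ℤ) + 3) v).length + 3 := by
    rw [iv_length, iv_length]
  have h := al_three (u + v + 3) (iv 1 u) (iv ((u : ℤ) + 3) v) hlen ((u : ℤ) + 1)
  have h2 := al_010_110 (u + v + 3) (iv 1 u) (iv ((u : ℤ) + 3) v) hlen ((u : ℤ) + 1)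
  have h3 := al_001_011 (u + v + 3) (iv 1 u) (iv ((u : ℤ) + 3) v) hlen ((u : ℤ) + 1)
  have hD := D_eq u (v + 1)
  unfold D at hD
  have e1 : u + (v + 1) + 2 = u + v + 3 := by ring
  have e3 : iv ((u : ℤ) + 2) (v + 1) = ((u : ℤ) + 1 + 1) :: iv ((u : ℤ) + 3) v :=
    iv_cons v (by ring) (by ring)
  have e6 : u + (v + 1) + 1 = u + v + 2 := by ring
  rw [e1, e3, e6] at hD
  unfold a b
  have e5 : (u : ℤ) + 2 = u + 1 + 1 := by ring
  rw [e5]
  linarith

theorem a_step (u v : ℕ) : a (u + 1) v = - b u (v + 1) := by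
  -- the window `x, y, z` with `x = u + 1` in front of `u + 3, ..., `
  have hR := R23_al (u + v + 4) (iv 1 u) (((u : ℤ) + 3) :: iv ((u : ℤ) + 4) v) ((u : ℤ) + 1)
    ((u : ℤ) + 1) ((u : ℤ) + 1 + 1)
  have h22 := al_0022 (u + v + 4) (iv 1 u) (iv ((u : ℤ) + 4) v)
    (by rw [iv_length, iv_length]) ((u : ℤ) + 1)
  have hD0 := D_eq u (v + 2)
  have hD1 := D_eq (u + 1) (v + 1)
  have hD2 := D_eq (u + 2) v
  unfold D at hD0 hD1 hD2
  have f0 : iv ((u : ℤ) + 2) (v + 2) = ((u : ℤ) + 1 + 1) :: ((u : ℤ) + 3) :: iv ((u : ℤ) + 4) v := by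
    rw [iv_cons (x := (u : ℤ) + 1 + 1) (b := (u : ℤ) + 3) (v + 1) (by ring) (by ring),
      iv_cons (x := (u : ℤ) + 3) (b := (u : ℤ) + 4) v (by ring) (by ring)]
  have f1 : iv (((u + 1 : ℕ) : ℤ) + 2) (v + 1) = ((u : ℤ) + 3) :: iv ((u : ℤ) + 4) v :=
    iv_cons v (by push_cast; ring) (by push_cast; ring)
  have f2 : iv (((u + 2 : ℕ) : ℤ) + 2) v = iv ((u : ℤ) + 4) v := by
    rw [show (((u + 2 : ℕ) : ℤ) + 2) = (u : ℤ) + 4 by push_cast; ring]
  have g1 : iv 1 (u + 1) = iv 1 u ++ [(u : ℤ) + 1] := by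
    rw [iv_snoc, add_comm (1 : ℤ)]
  have g2 : iv 1 (u + 2) = iv 1 u ++ [(u : ℤ) + 1, (u : ℤ) + 1 + 1] := by
    rw [iv_snoc, g1, List.append_assoc, List.singleton_append,
      show (1 : ℤ) + ((u + 1 : ℕ) : ℤ) = (u : ℤ) + 1 + 1 by push_cast; ring]
  have n0 : u + (v + 2) + 2 = u + v + 4 := by ring
  have n1 : u + 1 + (v + 1) + 2 = u + v + 4 := by ring
  have n2 : u + 2 + v + 2 = u + v + 4 := by ring
  have m0 : u + (v + 2) + 1 = u + v + 3 := by ring
  have m1 : u + 1 + (v + 1) + 1 = u + v + 3 := by ring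
  have m2 : u + 2 + v + 1 = u + v + 3 := by ring
  rw [n0, f0, m0] at hD0
  rw [n1, f1, g1, m1] at hD1
  rw [n2, f2, g2, m2] at hD2
  have c1 : ((u + 1 : ℕ) : ℤ) + 1 = u + 1 + 1 := by push_cast; ring
  have c2 : ((u + 2 : ℕ) : ℤ) + 1 = u + 3 := by push_cast; ring
  rw [c1] at hD1
  rw [c2] at hD2
  have c3 : (u : ℤ) + 1 + 1 + 1 = u + 3 := by ring
  simp only [V, c3] at hR
  simp only [List.append_assoc, List.cons_append, List.nil_append] at hD0 hD1 hD2
  rw [c3] at h22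
  unfold a b
  have k1 : u + 1 + v + 3 = u + v + 4 := by ring
  have k2 : u + (v + 1) + 3 = u + v + 4 := by ring
  have k3 : ((u + 1 : ℕ) : ℤ) + 2 = u + 3 := by push_cast; ring
  have k4 : ((u + 1 : ℕ) : ℤ) + 3 = u + 4 := by push_cast; ring
  have k5 : iv ((u : ℤ) + 3) (v + 1) = ((u : ℤ) + 3) :: iv ((u : ℤ) + 4) v :=
    iv_cons v (by ring) (by ring)
  have k6 : (u : ℤ) + 2 = u + 1 + 1 := by ring
  rw [k1, k2, g1, k3, k4, k5, c1, k6]
  simp only [List.append_assoc, List.cons_append, List.nil_append]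
  linarith

theorem nr_append (l1 l2 : List ℤ) : nr (l1 ++ l2) = nr l2 ++ nr l1 := by
  simp [nr]

theorem nr_iv (w : ℕ) : ∀ a : ℤ, nr (iv a w) = iv (1 - a - w) w := by
  induction w with
  | zero => intro a; simp [iv, nr]
  | succ w ih =>
    intro a
    have : nr (iv a (w + 1)) = nr (iv (a + 1) w) ++ [-a] := by
      simp [iv, nr]
    rw [this, ih, iv_snoc, show (1 : ℤ) - (a + 1) - w = 1 - a - ((w + 1 : ℕ) : ℤ) by
      push_cast; ring, show (1 : ℤ) - a - ((w + 1 : ℕ) : ℤ) + w = -a by push_cast; ring]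

theorem iv_map_add (c : ℤ) (w : ℕ) : ∀ a : ℤ, (iv a w).map (· + c) = iv (a + c) w := by
  induction w with
  | zero => intro a; simp [iv]
  | succ w ih =>
    intro a
    simp only [iv, List.map_cons, ih]
    congr 2; ring

theorem b_eq_a (u v : ℕ) : b u v = a v u := by
  unfold a b
  have h0 : al (v + u + 3) (iv 1 v ++ ((v : ℤ) + 2) :: ((v : ℤ) + 1) :: ((v : ℤ) + 2) ::
      iv ((v : ℤ) + 3) u) = al (v + u + 3) ((nr (iv 1 v ++ ((v : ℤ) + 2) :: ((v : ℤ) + 1) ::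
      ((v : ℤ) + 2) :: iv ((v : ℤ) + 3) u)).map (· + ((u : ℤ) + v + 3))) := by
    rw [al_shift, al_nr]
    simp [iv_length]; ring
  have h1 : nr (iv 1 v ++ ((v : ℤ) + 2) :: ((v : ℤ) + 1) :: ((v : ℤ) + 2) :: iv ((v : ℤ) + 3) u)
      = nr (iv ((v : ℤ) + 3) u) ++ (-((v : ℤ) + 2)) :: (-((v : ℤ) + 1)) :: (-((v : ℤ) + 2)) ::
        nr (iv 1 v) := by
    simp [nr]
  rw [h0, h1, nr_iv, nr_iv]
  simp only [List.map_append, List.map_cons, iv_map_add]
  rw [show v + u + 3 = u + v + 3 by ring,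
    show (1 : ℤ) - (v + 3) - u + (u + v + 3) = 1 by ring,
    show -((v : ℤ) + 2) + (u + v + 3) = u + 1 by ring,
    show -((v : ℤ) + 1) + (u + v + 3) = u + 2 by ring,
    show (1 : ℤ) - 1 - v + (u + v + 3) = u + 3 by ring]

theorem a_lin (u : ℕ) : ∀ v, a u v = a 0 (u + v) + u * An (u + v + 2) := by
  induction u with
  | zero => intro v; simp
  | succ u ih =>
    intro v
    have h1 := a_step u v
    have h2 := a_add_b u (v + 1)
    have h3 := ih (v + 1)
    have e1 : u + (v + 1) = u + 1 + v := by ring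
    rw [e1] at h2 h3
    push_cast
    linarith

/-- The value at the row `1, ..., u, u+2, u+1, u+2, ..., n` with `n = u + v + 2`. -/
theorem two_mul_a (u v : ℕ) : 2 * a u v = ((u : ℤ) - v - 1) * An (u + v + 2) := by
  have h1 := a_lin u v
  have h2 := a_lin (u + v) 0
  have h3 := a_add_b 0 (u + v)
  have h4 := b_eq_a 0 (u + v)
  rw [h4] at h3
  simp only [Nat.add_zero, zero_add] at h2 h3
  push_cast at h2
  linear_combination 2 * h1 - h2 + h3

end Pool.Agent.X144.MT
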