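import Pool.Agent.X144.MT.Alpha

/-!
# The extended recursion preserves polynomial functions
-/

namespace Pool.Agent.X144.MT

open MvPolynomial

/-- `f` is a polynomial function (with rational coefficients) of the environment `x`. -/
def PF (f : (ℕ → ℤ) → ℤ) : Prop :=
  ∃ Q : MvPolynomial ℕ ℚ, ∀ x : ℕ → ℤ, (f x : ℚ) = eval (fun i => (x i : ℚ)) Q

theorem PF_const (c : ℤ) : PF (fun _ => c) := ⟨C (c : ℚ), fun x => by simp⟩

theorem PF_var (i : ℕ) : PF (fun x => x i) := ⟨X i, fun x => by simp⟩

theorem PF.add {f g : (ℕ → ℤ) → ℤ} (hf : PF f) (hg : PF g) : PF (fun x => f x + g x) := by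
  obtain ⟨Q, hQ⟩ := hf
  obtain ⟨Q', hQ'⟩ := hg
  exact ⟨Q + Q', fun x => by simp [hQ, hQ']⟩

theorem PF.congr {f g : (ℕ → ℤ) → ℤ} (hf : PF f) (h : ∀ x, g x = f x) : PF g := by
  obtain ⟨Q, hQ⟩ := hf
  exact ⟨Q, fun x => by rw [h, hQ]⟩

theorem PF.sub {f g : (ℕ → ℤ) → ℤ} (hf : PF f) (hg : PF g) : PF (fun x => f x - g x) := by
  obtain ⟨Q, hQ⟩ := hf
  obtain ⟨Q', hQ'⟩ := hg
  exact ⟨Q - Q', fun x => by simp [hQ, hQ']⟩

theorem PF.subst {f : (ℕ → ℤ) → ℤ} (hf : PF f) {g : ℕ → (ℕ → ℤ) → ℤ} (hg : ∀ i, PF (g i)) :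
    PF (fun x => f (fun i => g i x)) := by
  obtain ⟨Q, hQ⟩ := hf
  choose G hG using hg
  refine ⟨bind₁ G Q, fun x => ?_⟩
  rw [hQ]
  simp only [hG]
  exact (eval₂Hom_bind₁ (RingHom.id ℚ) (fun i => (x i : ℚ)) G Q).symm

/-- Extending an environment. -/
def ec (l : ℤ) (x : ℕ → ℤ) : ℕ → ℤ
  | 0 => l
  | i + 1 => x i

theorem ec_zero (l : ℤ) (x : ℕ → ℤ) : ec l x 0 = l := rfl

theorem ec_succ (l : ℤ) (x : ℕ → ℤ) (i : ℕ) : ec l x (i + 1) = x i := rfl

theorem exists_sum_poly (k : ℕ) : ∃ F : Polynomial ℚ, F.eval 0 = 0 ∧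
    ∀ t : ℚ, F.eval (t + 1) - F.eval t = t ^ k := by
  refine ⟨Polynomial.C (1 / ((k : ℚ) + 1)) * (Polynomial.bernoulli (k + 1)
    - Polynomial.C ((Polynomial.bernoulli (k + 1)).eval 0)), by simp, fun t => ?_⟩
  have h := Polynomial.bernoulli_eval_one_add (k + 1) t
  have hk : ((k : ℚ) + 1) ≠ 0 := by positivity
  simp only [Polynomial.eval_mul, Polynomial.eval_C, Polynomial.eval_sub]
  rw [add_comm t 1, h]
  push_cast
  field_simp
  simp

/-- Summation of a polynomial whose coefficients are polynomials in the environment. -/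
theorem exists_sum_coeff (q : Polynomial (MvPolynomial ℕ ℚ)) :
    ∃ q' : Polynomial (MvPolynomial ℕ ℚ), ∀ x : ℕ → ℚ,
      (q'.map (eval x)).eval 0 = 0 ∧
      ∀ t : ℚ, (q'.map (eval x)).eval (t + 1) - (q'.map (eval x)).eval t
        = (q.map (eval x)).eval t := by
  induction q using Polynomial.induction_on' with
  | add p q hp hq =>
    obtain ⟨p', hp'⟩ := hp
    obtain ⟨q', hq'⟩ := hq
    refine ⟨p' + q', fun x => ⟨?_, fun t => ?_⟩⟩
    · rw [Polynomial.map_add, Polynomial.eval_add, (hp' x).1, (hq' x).1, add_zero]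
    · rw [Polynomial.map_add, Polynomial.eval_add, Polynomial.eval_add, Polynomial.map_add,
        Polynomial.eval_add, ← (hp' x).2, ← (hq' x).2]
      ring
  | monomial k c =>
    obtain ⟨F, hF0, hF⟩ := exists_sum_poly k
    refine ⟨Polynomial.C c * F.map (C : ℚ →+* MvPolynomial ℕ ℚ), fun x => ?_⟩
    have h1 : (F.map (C : ℚ →+* MvPolynomial ℕ ℚ)).map (eval x) = F := by
      rw [Polynomial.map_map]
      have : (eval x).comp (C : ℚ →+* MvPolynomial ℕ ℚ) = RingHom.id ℚ := by
        ext a; simp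
      rw [this, Polynomial.map_id]
    simp only [Polynomial.map_mul, Polynomial.map_C, h1, Polynomial.eval_mul, Polynomial.eval_C,
      Polynomial.map_monomial, Polynomial.eval_monomial]
    refine ⟨by rw [hF0, mul_zero], fun t => ?_⟩
    rw [← hF t]; ring

theorem P_eq_of_diff {f : ℤ → ℤ} {g : ℚ → ℚ} (h0 : g 0 = 0)
    (h : ∀ a : ℤ, g ((a : ℚ) + 1) - g a = f a) (a : ℤ) : (P f a : ℚ) = g a := by
  induction a using Int.induction_on with
  | zero => simp [P, h0]
  | succ i ih =>
    have h1 := h (i : ℤ)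
    rw [P_succ]; push_cast at h1 ih ⊢; linarith
  | pred i ih =>
    have h1 := h (-(i : ℤ) - 1)
    have h2 := P_succ f (-(i : ℤ) - 1)
    have e1 : -(i : ℤ) - 1 + 1 = -i := by ring
    rw [e1] at h2
    have h3 : (P f (-(i : ℤ)) : ℚ) = P f (-(i : ℤ) - 1) + f (-(i : ℤ) - 1) := by
      exact_mod_cast h2
    push_cast at h1 ih h3 ⊢
    have e2 : (-(i : ℚ) - 1 + 1) = -(i : ℚ) := by ring
    rw [e2] at h1
    linarith

theorem PF.sum {f : (ℕ → ℤ) → ℤ} (hf : PF f) {a : (ℕ → ℤ) → ℤ} (ha : PF a) :
    PF (fun x => P (fun l => f (ec l x)) (a x)) := by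
  obtain ⟨Q, hQ⟩ := hf
  obtain ⟨A, hA⟩ := ha
  -- `Q` as a polynomial in its first variable
  obtain ⟨q, hq⟩ : ∃ q : Polynomial (MvPolynomial ℕ ℚ), ∀ (l : ℤ) (x : ℕ → ℤ),
      eval (fun i => (ec l x i : ℚ)) Q = (q.map (eval (fun i => (x i : ℚ)))).eval (l : ℚ) := by
    clear hQ
    induction Q using MvPolynomial.induction_on with
    | C a => exact ⟨Polynomial.C (C a), fun l x => by simp⟩
    | add p q hp hq =>
      obtain ⟨p', hp'⟩ := hp
      obtain ⟨q', hq'⟩ := hq
      exact ⟨p' + q', fun l x => by simp [hp', hq']⟩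
    | mul_X p i hp =>
      obtain ⟨p', hp'⟩ := hp
      cases i with
      | zero => exact ⟨p' * Polynomial.X, fun l x => by
          rw [map_mul, hp', eval_X, ec_zero, Polynomial.map_mul, Polynomial.map_X,
            Polynomial.eval_mul, Polynomial.eval_X]⟩
      | succ i => exact ⟨p' * Polynomial.C (X i), fun l x => by
          rw [map_mul, hp', eval_X, ec_succ, Polynomial.map_mul, Polynomial.map_C,
            Polynomial.eval_mul, Polynomial.eval_C, eval_X]⟩
  obtain ⟨q', hq'⟩ := exists_sum_coeff q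
  refine ⟨q'.eval A, fun x => ?_⟩
  have h1 := hq' (fun i => (x i : ℚ))
  have h2 := P_eq_of_diff (f := fun l => f (ec l x))
    (g := fun t => (q'.map (eval (fun i => (x i : ℚ)))).eval t) h1.1
    (fun a => by rw [h1.2, hQ, hq]) (a x)
  rw [h2, hA, Polynomial.eval_map, Polynomial.eval₂_at_apply]

/-- Shifting an environment. -/
theorem PF.tail {f : (ℕ → ℤ) → ℤ} (hf : PF f) : PF (fun x => f (fun i => x (i + 1))) :=
  hf.subst (fun i => PF_var (i + 1))

/-- `A` is a polynomial function on lists of length `m`. -/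
def PL (m : ℕ) (A : List ℤ → ℤ) : Prop :=
  ∀ L : List ((ℕ → ℤ) → ℤ), L.length = m → (∀ g ∈ L, PF g) →
    PF (fun x => A (L.map (fun g => g x)))

theorem PF_T {m : ℕ} {A : List ℤ → ℤ} (hA : PL m A) :
    ∀ (n : ℕ) (L L0 : List ((ℕ → ℤ) → ℤ)) (k : (ℕ → ℤ) → ℤ), L.length = n → L0.length + n = m →
      (∀ g ∈ L, PF g) → (∀ g ∈ L0, PF g) → PF k →
      PF (fun x => T (fun s => A (L0.map (fun g => g x) ++ s)) (k x) (L.map (fun g => g x))) := by
  intro n
  induction n with
  | zero =>
    intro L L0 k hL0 hlen _ h0 _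
    have : L = [] := List.length_eq_zero_iff.1 hL0
    subst this
    simp only [List.map_nil, T_nil, List.append_nil]
    exact hA L0 (by simpa using hlen) h0
  | succ n ih =>
    intro L L0 k hLn hlen hL h0 hk
    cases L with
    | nil => simp at hLn
    | cons k2 L =>
    have hk2 : PF k2 := hL k2 (by simp)
    have hL' : ∀ g ∈ L, PF g := fun g hg => hL g (by simp [hg])
    have hLn' : L.length = n := by simpa using hLn
    -- the second term
    have t2 := ih L (L0 ++ [k2]) (fun x => k2 x + 1) hLn' (by simp at hlen ⊢; omega) hL'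
      (by
        intro g hg
        rcases List.mem_append.1 hg with h | h
        · exact h0 g h
        · simp at h; rw [h]; exact hk2)
      (hk2.add (PF_const 1))
    -- the first term
    have t1 := ih (L.map (fun (g : (ℕ → ℤ) → ℤ) (x : ℕ → ℤ) => g (fun i => x (i + 1))))
      (L0.map (fun (g : (ℕ → ℤ) → ℤ) (x : ℕ → ℤ) => g (fun i => x (i + 1))) ++ [fun x => x 0])
      (fun x => k2 (fun i => x (i + 1))) (by simpa using hLn') (by simp at hlen ⊢; omega)
      (by
        intro g hg
        obtain ⟨g', hg', rfl⟩ := List.mem_map.1 hg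
        exact (hL' g' hg').tail)
      (by
        intro g hg
        rcases List.mem_append.1 hg with h | h
        · obtain ⟨g', hg', rfl⟩ := List.mem_map.1 h
          exact (h0 g' hg').tail
        · simp at h; rw [h]; exact PF_var 0)
      hk2.tail
    have s1 := (t1.sum hk2).sub (t1.sum hk)
    have s2 := s1.add t2
    refine s2.congr ?_
    intro x
    simp only [List.map_cons, T_cons, E, List.map_map, List.map_append, List.map_nil,
      List.append_assoc, List.cons_append, List.nil_append]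
    rfl

/-- Polynomial functions on rows of length `m` are mapped to polynomial functions on rows of
length `m + 1`. -/
theorem PL_SA {m : ℕ} {A : List ℤ → ℤ} (hA : PL m A) : PL (m + 1) (SA A) := by
  intro L hL hg
  cases L with
  | nil => simp at hL
  | cons k L =>
    have h := PF_T hA m L [] k (by simpa using hL) (by simp) (fun g h => hg g (by simp [h]))
      (by simp) (hg k (by simp))
    simpa [SA] using h

theorem PL_al (m : ℕ) : PL m (al m) := by
  induction m with
  | zero =>
    intro L hL _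
    have : L = [] := List.length_eq_zero_iff.1 hL
    subst this
    simpa [al] using PF_const 1
  | succ m ih => exact PL_SA ih

theorem eval_diag (Q : MvPolynomial ℕ ℚ) (s : ℚ) :
    eval (fun _ => s) Q = (MvPolynomial.aeval (fun _ : ℕ => (Polynomial.X : Polynomial ℚ)) Q).eval
      s := by
  induction Q using MvPolynomial.induction_on with
  | C a => simp
  | add p q hp hq => rw [map_add, map_add, Polynomial.eval_add, hp, hq]
  | mul_X p i hp => rw [map_mul, map_mul, Polynomial.eval_mul, hp]; simp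

/-- A polynomial function of one integer variable. -/
theorem PF.diag {f : (ℕ → ℤ) → ℤ} (hf : PF f) :
    ∃ q : Polynomial ℚ, ∀ s : ℤ, (f (fun _ => s) : ℚ) = q.eval (s : ℚ) := by
  obtain ⟨Q, hQ⟩ := hf
  exact ⟨_, fun s => by rw [hQ, eval_diag]⟩

/-- A polynomial `q` with `q(s) + q(s+1) = 0` for all integers `s` vanishes at all integers. -/
theorem poly_alternating (q : Polynomial ℚ)
    (h : ∀ s : ℤ, q.eval (s : ℚ) + q.eval ((s : ℚ) + 1) = 0) (s : ℤ) : q.eval (s : ℚ) = 0 := by
  have h2 : ∀ n : ℕ, q.eval ((s : ℚ) + 2 * n) = q.eval (s : ℚ) := by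
    intro n
    induction n with
    | zero => simp
    | succ n ih =>
      have a1 := h (s + 2 * n)
      have a2 := h (s + 2 * n + 1)
      push_cast at a1 a2 ⊢
      have e1 : (s : ℚ) + 2 * ((n : ℚ) + 1) = (s : ℚ) + 2 * n + 1 + 1 := by ring
      rw [e1]; linarith
  have h3 : q = Polynomial.C (q.eval (s : ℚ)) := by
    apply Polynomial.eq_of_infinite_eval_eq
    apply Set.infinite_of_injective_forall_mem (f := fun n : ℕ => (s : ℚ) + 2 * n)
    · intro a b hab
      simp only at hab
      have : (a : ℚ) = b := by linarith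
      exact_mod_cast this
    · intro n
      show q.eval _ = (Polynomial.C (q.eval (s : ℚ))).eval _
      rw [Polynomial.eval_C]
      exact h2 n
  have h4 := h s
  have h5 : q.eval ((s : ℚ) + 1) = q.eval (s : ℚ) := by
    conv_lhs => rw [h3]
    simp
  linarith

/-- A polynomial function `f` of one integer variable with `f(s) + f(s+1) = 0` is zero. -/
theorem PF.alternating {f : (ℕ → ℤ) → ℤ} (hf : PF f)
    (h : ∀ s : ℤ, f (fun _ => s) + f (fun _ => s + 1) = 0) (s : ℤ) : f (fun _ => s) = 0 := by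
  obtain ⟨q, hq⟩ := hf.diag
  have h1 := poly_alternating q (fun s => by
    have h1 := h s
    have h2 := hq s
    have h3 := hq (s + 1)
    push_cast at h3
    rw [← h2, ← h3]
    exact_mod_cast h1) s
  rw [← hq] at h1
  exact_mod_cast h1

/-- A window of three polynomial arguments in `al`. -/
theorem PF_window (m : ℕ) (p r : List ℤ) (hm : m = p.length + r.length + 3)
    {g1 g2 g3 : (ℕ → ℤ) → ℤ} (h1 : PF g1) (h2 : PF g2) (h3 : PF g3) :
    PF (fun x => al m (p ++ g1 x :: g2 x :: g3 x :: r)) := by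
  have h := PL_al m (p.map (fun c (_ : ℕ → ℤ) => c) ++ g1 :: g2 :: g3 ::
    r.map (fun c (_ : ℕ → ℤ) => c)) (by simp; omega) (by
      intro g hg
      simp only [List.mem_append, List.mem_map, List.mem_cons] at hg
      rcases hg with ⟨c, _, rfl⟩ | rfl | rfl | rfl | ⟨c, _, rfl⟩
      · exact PF_const c
      · exact h1
      · exact h2
      · exact h3
      · exact PF_const c)
  refine h.congr (fun x => ?_)
  simp only [List.map_append, List.map_map, List.map_cons]
  congr 2
  · simp [Function.comp_def]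
  · simp [Function.comp_def]

theorem R12_al (m : ℕ) (p r : List ℤ) (z : ℤ) : R (fun x y => al m (p ++ x :: y :: z :: r)) :=
  RR_al m p (z :: r)

theorem R23_al (m : ℕ) (p r : List ℤ) (x : ℤ) : R (fun y z => al m (p ++ x :: y :: z :: r)) := by
  have h := RR_al m (p ++ [x]) r
  simpa using h

/-- Three adjacent equal arguments give zero. -/
theorem al_triple (m : ℕ) (p r : List ℤ) (hm : m = p.length + r.length + 3) (x : ℤ) :
    al m (p ++ x :: x :: x :: r) = 0 := by
  have hPF := PF_window m p r hm (PF_var 0) (PF_var 0) (PF_var 0)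
  refine hPF.alternating (fun s => ?_) x
  have a1 := R12_al m p r s s s
  have a2 := R12_al m p r (s + 1) s s
  have b1 := R23_al m p r s s s
  simp only [V] at a1 a2 b1 ⊢
  linarith

/-- The eight-term identity becomes a three-term identity for `al`. -/
theorem al_three (m : ℕ) (p r : List ℤ) (hm : m = p.length + r.length + 3) (x : ℤ) :
    al m (p ++ x :: (x + 1) :: (x + 1) :: r) + al m (p ++ (x + 1) :: x :: (x + 1) :: r)
      + al m (p ++ (x + 1) :: (x + 1) :: x :: r) = 0 := by
  have v0 := PF_var 0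
  have v1 : PF (fun x => x 0 + 1) := (PF_var 0).add (PF_const 1)
  have hPF := ((PF_window m p r hm v0 v1 v1).add (PF_window m p r hm v1 v0 v1)).add
    (PF_window m p r hm v1 v1 v0)
  refine hPF.alternating (fun s => ?_) x
  have h := R_psi (B := fun x y z => al m (p ++ x :: y :: z :: r)) (R12_al m p r) (R23_al m p r)
    s (s + 1)
  have t1 := al_triple m p r hm (s + 1)
  have t2 := al_triple m p r hm (s + 1 + 1)
  simp only at h ⊢
  linarith

/-! ### Relations in a window of three arguments `x, x, x+1` -/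

section
variable (m : ℕ) (p r : List ℤ)

theorem al_001_011 (hm : m = p.length + r.length + 3) (x : ℤ) :
    al m (p ++ x :: x :: (x + 1) :: r) = al m (p ++ x :: (x + 1) :: (x + 1) :: r) := by
  have b1 := R23_al m p r x x x
  have t := al_triple m p r hm x
  simp only [V] at b1
  linarith

theorem al_010_110 (hm : m = p.length + r.length + 3) (x : ℤ) :
    al m (p ++ x :: (x + 1) :: x :: r) = al m (p ++ (x + 1) :: (x + 1) :: x :: r) := by
  have b1 := R12_al m p r x x x
  have t := al_triple m p r hm x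
  simp only [V] at b1
  linarith

end

/-- Two adjacent doubled arguments `x, x, x+1, x+1` give zero. -/
theorem al_0011 (m : ℕ) (p r : List ℤ) (hm : m = p.length + r.length + 4) (x : ℤ) :
    al m (p ++ x :: x :: (x + 1) :: (x + 1) :: r) = 0 := by
  have b1 := R23_al m (p ++ [x]) r x x x
  have t1 := al_triple m p (x :: r) (by simp; omega) x
  have t2 := al_triple m p ((x + 1) :: r) (by simp; omega) x
  simp only [V, List.append_assoc, List.cons_append, List.nil_append] at b1
  linarith

/-- The values `x, x, x+2, x+2` and `x, x, x+1, x+2` agree. -/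
theorem al_0022 (m : ℕ) (p r : List ℤ) (hm : m = p.length + r.length + 4) (x : ℤ) :
    al m (p ++ x :: x :: (x + 1 + 1) :: (x + 1 + 1) :: r)
      = al m (p ++ x :: x :: (x + 1) :: (x + 1 + 1) :: r) := by
  have b1 := R23_al m (p ++ [x]) r x (x + 1) (x + 1)
  have t1 := al_0011 m p r hm x
  simp only [V, List.append_assoc, List.cons_append, List.nil_append] at b1
  linarith

end Pool.Agent.X144.MT
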