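import Pool.Agent.X144.MT.Count

/-!
# Uniqueness of the interpolating polynomial, translation and reflection
-/

namespace Pool.Agent.X144.MT

open MvPolynomial

/-- A polynomial which vanishes at all strictly increasing integer vectors is zero. -/
theorem eq_zero_of_strictMono {m : ℕ} (P : MvPolynomial (Fin m) ℚ)
    (h : ∀ k : Fin m → ℤ, StrictMono k → eval (fun i => (k i : ℚ)) P = 0) : P = 0 := by
  set N : ℕ := P.totalDegree + 1 with hN
  set S : Fin m → Finset ℚ := fun i => (Finset.range N).image (fun t : ℕ => ((N * i.val + t : ℕ) : ℚ))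
    with hS
  apply eq_zero_of_eval_zero_at_prod_finset P S
  · intro i
    rw [hS]
    simp only
    rw [Finset.card_image_of_injective]
    · rw [Finset.card_range]
      exact lt_of_le_of_lt (degreeOf_le_totalDegree P i) (by omega)
    · intro a b hab
      have hab' : ((N * i.val + a : ℕ) : ℚ) = ((N * i.val + b : ℕ) : ℚ) := hab
      have : (N * i.val + a : ℕ) = (N * i.val + b : ℕ) := by exact_mod_cast hab'
      omega
  · intro x hx
    have hx' : ∀ i, ∃ t : ℕ, t < N ∧ x i = ((N * i.val + t : ℕ) : ℚ) := by
      intro i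
      have := hx i
      simp only [hS, Finset.mem_image, Finset.mem_range] at this
      obtain ⟨t, ht, h2⟩ := this
      exact ⟨t, ht, h2.symm⟩
    choose t ht hxt using hx'
    have h1 := h (fun i => ((N * i.val + t i : ℕ) : ℤ)) (by
      intro i j hij
      have h2 : i.val + 1 ≤ j.val := hij
      have h3 : N * (i.val + 1) ≤ N * j.val := Nat.mul_le_mul_left N h2
      have h4 := ht i
      have h5 : N * (i.val + 1) = N * i.val + N := by ring
      have h6 : N * i.val + t i < N * j.val + t j := by omega
      show ((N * i.val + t i : ℕ) : ℤ) < ((N * j.val + t j : ℕ) : ℤ)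
      exact_mod_cast h6)
    have : x = fun i => (((N * i.val + t i : ℕ) : ℤ) : ℚ) := by
      funext i
      rw [hxt]; push_cast; ring
    rw [this]; exact h1

/-- A polynomial function on lists of length `m` as a polynomial in `m` variables. -/
theorem PL.exists_poly {m : ℕ} {A : List ℤ → ℤ} (hA : PL m A) :
    ∃ Q : MvPolynomial (Fin m) ℚ, ∀ k : Fin m → ℤ,
      (A (List.ofFn k) : ℚ) = eval (fun i => (k i : ℚ)) Q := by
  obtain ⟨Q, hQ⟩ := hA (List.ofFn (fun i : Fin m => fun x => x i.val)) (by simp) (by
    intro g hg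
    rw [List.mem_ofFn] at hg
    obtain ⟨i, rfl⟩ := hg
    exact PF_var i.val)
  refine ⟨bind₁ (fun i : ℕ => if h : i < m then X ⟨i, h⟩ else 0) Q, fun k => ?_⟩
  have h1 := hQ (fun i => if h : i < m then k ⟨i, h⟩ else 0)
  have h2 : (List.ofFn (fun i : Fin m => fun x : ℕ → ℤ => x i.val)).map
      (fun g => g (fun i => if h : i < m then k ⟨i, h⟩ else 0)) = List.ofFn k := by
    rw [List.map_ofFn]
    congr 1
    funext i
    simp
  beta_reduce at h1
  rw [h2] at h1
  rw [h1]
  rw [show (eval (fun i => (k i : ℚ))) (bind₁ (fun i : ℕ => if h : i < m then X ⟨i, h⟩ else 0) Q)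
    = eval₂Hom (RingHom.id ℚ) (fun i => (k i : ℚ))
      (bind₁ (fun i : ℕ => if h : i < m then X ⟨i, h⟩ else 0) Q) from rfl, eval₂Hom_bind₁]
  have h3 : (fun i : ℕ => (((if h : i < m then k ⟨i, h⟩ else 0 : ℤ)) : ℚ))
      = fun i : ℕ => eval₂Hom (RingHom.id ℚ) (fun i => (k i : ℚ))
        (if h : i < m then (X ⟨i, h⟩ : MvPolynomial (Fin m) ℚ) else 0) := by
    funext i
    by_cases hi : i < m
    · simp [hi]
    · simp [hi]
  rw [h3]
  rfl

/-- Two polynomial functions that agree on strictly increasing lists agree on all lists. -/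
theorem PL.ext {m : ℕ} {A B : List ℤ → ℤ} (hA : PL m A) (hB : PL m B)
    (h : ∀ l : List ℤ, l.length = m → l.Pairwise (· < ·) → A l = B l) (l : List ℤ)
    (hl : l.length = m) : A l = B l := by
  subst hl
  obtain ⟨Q, hQ⟩ := hA.exists_poly
  obtain ⟨Q', hQ'⟩ := hB.exists_poly
  have h1 : Q - Q' = 0 := by
    apply eq_zero_of_strictMono
    intro k hk
    rw [map_sub, ← hQ, ← hQ', h (List.ofFn k) (by simp) ?_]
    · ring
    · rw [List.pairwise_ofFn]
      intro i j hij
      exact hk hij
  have h2 : Q = Q' := sub_eq_zero.1 h1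
  have h3 := hQ l.get
  have h4 := hQ' l.get
  rw [h2, ← h4] at h3
  simp only [List.ofFn_get] at h3
  exact_mod_cast h3

/-! ### Translation -/

theorem P_shift (f : ℤ → ℤ) (c a : ℤ) : P (fun l => f (l + c)) a = P f (a + c) - P f c := by
  induction a using Int.induction_on with
  | zero => simp [P]
  | succ i ih =>
    rw [P_succ, ih, show (i : ℤ) + 1 + c = i + c + 1 by ring, P_succ f (i + c)]; ring
  | pred i ih =>
    have h1 := P_succ (fun l => f (l + c)) (-(i : ℤ) - 1)
    have h2 := P_succ f (-(i : ℤ) - 1 + c)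
    have e1 : -(i : ℤ) - 1 + 1 = -i := by ring
    have e2 : -(i : ℤ) - 1 + c + 1 = -i + c := by ring
    rw [e1] at h1
    rw [e2] at h2
    linarith

theorem T_shift (c : ℤ) : ∀ (r : List ℤ) (A : List ℤ → ℤ) (k : ℤ),
    T A (k + c) (r.map (· + c)) = T (fun s => A (s.map (· + c))) k r := by
  intro r
  induction r with
  | nil => intro A k; simp [T]
  | cons k2 r ih =>
    intro A k
    simp only [List.map_cons, T_cons]
    have h1 : T (fun s => A ((k2 + c) :: s)) (k2 + c + 1) (r.map (· + c))
        = T (fun s => A ((k2 + c) :: s.map (· + c))) (k2 + 1) r := by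
      rw [show k2 + c + 1 = k2 + 1 + c by ring, ih]
    rw [h1]
    congr 1
    have h2 : ∀ l, T (fun s => A ((l + c) :: s.map (· + c))) k2 r
        = (fun l => T (fun s => A (l :: s)) (k2 + c) (r.map (· + c))) (l + c) := by
      intro l
      simp only
      rw [ih]
    rw [E_congr h2]
    simp only [E, P_shift (fun l => T (fun s => A (l :: s)) (k2 + c) (r.map (· + c))) c]
    ring

theorem al_shift (c : ℤ) (m : ℕ) : ∀ l : List ℤ, al m (l.map (· + c)) = al m l := by
  induction m with
  | zero => intro l; simp [al]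
  | succ m ih =>
    intro l
    cases l with
    | nil => simp
    | cons k r =>
      show T (al m) (k + c) (r.map (· + c)) = T (al m) k r
      rw [T_shift]
      exact T_congr k r ih

/-! ### Reflection -/

/-- The negated and reversed row. -/
def nr (l : List ℤ) : List ℤ := (l.map (fun x => -x)).reverse

theorem nr_length (l : List ℤ) : (nr l).length = l.length := by simp [nr]

theorem nr_nr (l : List ℤ) : nr (nr l) = l := by
  simp [nr, List.map_reverse, Function.comp_def]

theorem nr_pairwise {l : List ℤ} (h : l.Pairwise (· < ·)) : (nr l).Pairwise (· < ·) := by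
  unfold nr
  rw [List.pairwise_reverse, List.pairwise_map]
  exact h.imp (fun hab => by simpa using hab)

theorem nr_getD (l : List ℤ) (j : ℕ) (hj : j < l.length) :
    (nr l).getD j 0 = - l.getD (l.length - 1 - j) 0 := by
  unfold nr
  rw [List.getD_eq_getElem _ _ (by simpa using hj), List.getElem_reverse,
    List.getElem_map, List.getD_eq_getElem _ _ (by omega)]
  simp

theorem Above.nr {l k : List ℤ} (h : Above l k) : Above (nr l) (nr k) := by
  obtain ⟨h1, h2⟩ := h
  refine ⟨by rw [nr_length, nr_length]; exact h1, ?_⟩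
  intro j hj
  rw [nr_length] at hj
  have h3 := h2 (l.length - 1 - j) (by omega)
  rw [nr_getD l j hj, nr_getD k j (by omega), nr_getD k (j + 1) (by omega)]
  have e1 : k.length - 1 - j = l.length - 1 - j + 1 := by omega
  have e2 : k.length - 1 - (j + 1) = l.length - 1 - j := by omega
  rw [e1, e2]
  exact ⟨by linarith [h3.2], by linarith [h3.1]⟩

/-- `al` is invariant under reflection, for strictly increasing rows. -/
theorem al_nr_strict (m : ℕ) : ∀ l : List ℤ, l.length = m → l.Pairwise (· < ·) →
    al m (nr l) = al m l := by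
  induction m with
  | zero =>
    intro l hl _
    have : l = [] := List.length_eq_zero_iff.1 hl
    subst this
    simp [MT.nr]
  | succ m ih =>
    intro l hl hP
    have hval : ∀ k : List ℤ, k.length = m + 1 → k.Pairwise (· < ·) →
        ∃ F : Finset (List ℤ), (∀ s, s ∈ F ↔ (Above s k ∧ s.Pairwise (· < ·))) ∧
          al (m + 1) k = ∑ s ∈ F, al m s := by
      intro k hk hkP
      cases k with
      | nil => simp at hk
      | cons k0 r =>
        refine ⟨RF k0 r, mem_RF r k0 (Wk_of_pairwise hkP), ?_⟩
        exact T_eq_sum r (al m) k0 (Wk_of_pairwise hkP)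
    obtain ⟨F, hF, hFs⟩ := hval l hl hP
    obtain ⟨G, hG, hGs⟩ := hval (nr l) (by rw [nr_length, hl]) (nr_pairwise hP)
    rw [hFs, hGs]
    symm
    apply Finset.sum_nbij' (i := nr) (j := nr)
    · intro s hs
      rw [hF] at hs
      rw [hG]
      exact ⟨hs.1.nr, nr_pairwise hs.2⟩
    · intro s hs
      rw [hG] at hs
      rw [hF]
      have := hs.1.nr
      rw [nr_nr] at this
      exact ⟨this, nr_pairwise hs.2⟩
    · intro s _; exact nr_nr s
    · intro s _; exact nr_nr s
    · intro s hs
      rw [hF] at hs
      have := hs.1.1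
      exact (ih s (by omega) hs.2).symm

theorem PL.nr {m : ℕ} {A : List ℤ → ℤ} (hA : PL m A) : PL m (fun l => A (nr l)) := by
  intro L hL hg
  have h := hA (L.map (fun g x => 0 - g x)).reverse (by simpa using hL) (by
    intro g h
    rw [List.mem_reverse, List.mem_map] at h
    obtain ⟨g', hg', rfl⟩ := h
    exact (PF_const 0).sub (hg g' hg'))
  refine h.congr (fun x => ?_)
  simp [MT.nr, Function.comp_def]

/-- `al` is invariant under reflection. -/
theorem al_nr (m : ℕ) (l : List ℤ) (hl : l.length = m) : al m (nr l) = al m l :=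
  PL.ext (PL_al m).nr (PL_al m) (al_nr_strict m) l hl

end Pool.Agent.X144.MT
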