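import Pool.Agent.X287.MTAl

/-!
# The row step of a word of doubled letters with spacing two
-/

namespace Pool.Agent.X144.MTStar

open Pool.Agent.X287.MTRing

variable {A : Type*} [Ring A]

/-- Backward difference of a family of letters. -/
def nb (t : ℤ → A) : ℤ → A := fun k => t k - t (k - 1)

/-- Iterated backward differences. -/
def nbs (t : ℤ → A) : ℕ → ℤ → A
  | 0 => t
  | m + 1 => nb (nbs t m)

theorem nbs_succ' (t : ℤ → A) (m : ℕ) : nbs t (m + 1) = nbs (nb t) m := by
  induction m with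
  | zero => rfl
  | succ m ih => rw [nbs, ih]; rfl

/-- The function `f(k) = t_k (t_{s+2} + t_{s+1} + t_s) t_s + t_s t_s (t_k - t_{k-1})`. -/
def fk (t : ℤ → A) (s : ℤ) : ℤ → A := fun k =>
  t k * (t (s + 1 + 1) + t (s + 1) + t s) * t s + t s * t s * nb t k

theorem fk_base {t : ℤ → A} (h : Rel t) (s : ℤ) : fk t s (s + 1 + 1) = 0 := by
  have e1 := h.rel s (s + 1)
  have e2 := h.adj (s + 1)
  have e3 := h.cub (s + 1) s
  have e4 := h.cub (s + 1 + 1) s
  have e2' : t (s + 1) * t (s + 1) - t (s + 1) * t (s + 1 + 1)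
      + t (s + 1 + 1) * t (s + 1 + 1) = 0 := by rw [e2]; abel
  have key : fk t s (s + 1 + 1)
      = (t s * t (s + 1) - t s * t (s + 1 + 1) + t (s + 1) * t (s + 1 + 1)
        + (t (s + 1) * t s - t (s + 1) * t (s + 1) + t (s + 1 + 1) * t (s + 1))) * t s
        + (t (s + 1) * t (s + 1) - t (s + 1) * t (s + 1 + 1)
          + t (s + 1 + 1) * t (s + 1 + 1)) * t s
        - (t (s + 1) * (t s * t s) + t s * (t (s + 1) * t s) + t s * (t s * t (s + 1)))
        + (t (s + 1 + 1) * (t s * t s) + t s * (t (s + 1 + 1) * t s)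
          + t s * (t s * t (s + 1 + 1))) := by
    unfold fk nb
    rw [show s + 1 + 1 - 1 = s + 1 by ring]
    noncomm_ring
  rw [key, e1, e2', e3, e4]
  simp

theorem fk_step {t : ℤ → A} (h : Rel t) (s k : ℤ) :
    nb (fk t s) (k + 1 + 1)
      = - (t (s + 1 + 1) * t (k + 1 + 1) * t s) - t k * t (s + 1) * t s := by
  have e1 := h.rel s k
  have e2 := h.rel s (k + 1)
  have e3 := h.rel (s + 1) (k + 1)
  have c0 := h.cub k s
  have c1 := h.cub (k + 1) s
  have c2 := h.cub (k + 1 + 1) s
  have key : nb (fk t s) (k + 1 + 1)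
      + (t (s + 1 + 1) * t (k + 1 + 1) * t s) + t k * t (s + 1) * t s
      = - (t s * t k - t s * t (k + 1) + t (s + 1) * t (k + 1)
        + (t k * t s - t k * t (s + 1) + t (k + 1) * t (s + 1))) * t s
      + (t s * t (k + 1) - t s * t (k + 1 + 1) + t (s + 1) * t (k + 1 + 1)
        + (t (k + 1) * t s - t (k + 1) * t (s + 1) + t (k + 1 + 1) * t (s + 1))) * t s
      + (t (s + 1) * t (k + 1) - t (s + 1) * t (k + 1 + 1) + t (s + 1 + 1) * t (k + 1 + 1)
        + (t (k + 1) * t (s + 1) - t (k + 1) * t (s + 1 + 1)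
          + t (k + 1 + 1) * t (s + 1 + 1))) * t s
      + (t k * (t s * t s) + t s * (t k * t s) + t s * (t s * t k))
      - (t (k + 1) * (t s * t s) + t s * (t (k + 1) * t s) + t s * (t s * t (k + 1)))
      - (t (k + 1) * (t s * t s) + t s * (t (k + 1) * t s) + t s * (t s * t (k + 1)))
      + (t (k + 1 + 1) * (t s * t s) + t s * (t (k + 1 + 1) * t s)
        + t s * (t s * t (k + 1 + 1))) := by
    simp only [nb, fk]
    rw [show k + 1 + 1 - 1 = k + 1 by ring, show k + 1 - 1 = k by ring]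
    noncomm_ring
  rw [e1, e2, e3, c0, c1, c2] at key
  simp only [neg_zero, zero_mul, add_zero, sub_zero] at key
  rw [← sub_eq_zero, ← key]
  abel

/-- The word `s+2m, s+2m, …, s+2, s+2`. -/
def wd (s : ℤ) : ℕ → List ℤ
  | 0 => []
  | m + 1 => (s + 2 * m + 2) :: (s + 2 * m + 2) :: wd s m

/-- The product of the letters of `wd s m`. -/
def W (t : ℤ → A) (s : ℤ) (m : ℕ) : A := ((wd s m).map t).prod

theorem W_zero (t : ℤ → A) (s : ℤ) : W t s 0 = 1 := by simp [W, wd]

theorem W_succ (t : ℤ → A) (s : ℤ) (m : ℕ) :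
    W t s (m + 1) = t (s + 2 * m + 2) * (t (s + 2 * m + 2) * W t s m) := by
  simp [W, wd]

theorem W_right (t : ℤ → A) (m : ℕ) : ∀ s : ℤ,
    W t s (m + 1) = W t (s + 2) m * (t (s + 2) * t (s + 2)) := by
  induction m with
  | zero => intro s; rw [W_succ, W_zero, W_zero]; simp
  | succ m ih =>
    intro s
    rw [W_succ, ih, W_succ t (s + 2) m]
    have : s + 2 * ((m + 1 : ℕ) : ℤ) + 2 = s + 2 + 2 * m + 2 := by push_cast; ring
    rw [this]
    simp only [mul_assoc]

/-- `P_m`, the row step of `wd s m`. -/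
def Pm (t : ℤ → A) (s : ℤ) (m : ℕ) : A := D t (wd s m)

/-- The row step of `wd s m` with the next letter in front. -/
def Qm (t : ℤ → A) (s : ℤ) (m : ℕ) : A := D t ((s + 2 * m + 2) :: wd s m)

theorem Pm_succ (t : ℤ → A) (s : ℤ) (m : ℕ) :
    Pm t s (m + 1) = t (s + 2 * m + 2) * Qm t s m
      - t (s + 2 * m + 2) * (t (s + 2 * m + 2) * Pm t s m) := by
  unfold Pm Qm
  rw [wd, D, I_self]

theorem I_two (t : ℤ → A) (x : ℤ) : I t (x + 2) x = - t (x + 1) := by
  unfold I
  rw [if_neg (by omega)]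
  have : (x + 2 - 1 - x).toNat = 1 := by omega
  rw [this]
  simp [S]

theorem Pm_one (t : ℤ → A) (s : ℤ) : Pm t s 1 = t (s + 2) := by
  rw [Pm_succ]
  simp [Pm, Qm, wd, D]

theorem cube_Pm {t : ℤ → A} (h : Rel t) (s : ℤ) (m : ℕ) :
    t (s + 2 * m + 2) * (t (s + 2 * m + 2) * Pm t s (m + 1)) = 0 := by
  rw [Pm_succ]
  set x := s + 2 * (m : ℤ) + 2
  have e : t x * (t x * (t x * Qm t s m - t x * (t x * Pm t s m)))
      = (t x * (t x * t x)) * Qm t s m - (t x * (t x * t x)) * (t x * Pm t s m) := by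
    noncomm_ring
  rw [e, h.cube]
  simp

theorem Qm_succ {t : ℤ → A} (h : Rel t) (s : ℤ) (m : ℕ) :
    Qm t s (m + 1) = - ((t (s + 2 * m + 2 + 1) + t (s + 2 * m + 2)) * Pm t s (m + 1)) := by
  set x := s + 2 * (m : ℤ) + 2 with hx
  have e0 : s + 2 * ((m + 1 : ℕ) : ℤ) + 2 = x + 2 := by rw [hx]; push_cast; ring
  have e1 : Qm t s (m + 1) = - t (x + 1) * Pm t s (m + 1) - t x * (t x * Qm t s m) := by
    unfold Pm Qm
    rw [e0, wd, ← hx, D, I_two]
  have e2 : t x * Pm t s (m + 1) = t x * (t x * Qm t s m) := by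
    rw [Pm_succ, ← hx]
    have e : t x * (t x * Qm t s m - t x * (t x * Pm t s m))
        = t x * (t x * Qm t s m) - (t x * (t x * t x)) * Pm t s m := by
      noncomm_ring
    rw [e, h.cube]
    simp
  rw [e1, ← e2]
  noncomm_ring

theorem Pm_rec {t : ℤ → A} (h : Rel t) (s : ℤ) (m : ℕ) :
    Pm t s (m + 2) = - (t (s + 2 * m + 2 + 1 + 1)
      * ((t (s + 2 * m + 2 + 1 + 1) + t (s + 2 * m + 2 + 1) + t (s + 2 * m + 2))
        * Pm t s (m + 1))) := by
  have e0 : s + 2 * ((m + 1 : ℕ) : ℤ) + 2 = s + 2 * m + 2 + 1 + 1 := by push_cast; ring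
  rw [Pm_succ, Qm_succ h, e0]
  noncomm_ring

theorem Pm_right {t : ℤ → A} (h : Rel t) (m : ℕ) : ∀ s : ℤ,
    Pm t s (m + 2) = - (Pm t (s + 2) (m + 1)
      * (t (s + 2 + 1 + 1) + t (s + 2 + 1) + t (s + 2)) * t (s + 2)) := by
  induction m with
  | zero =>
    intro s
    rw [Pm_rec h, Pm_one, Pm_one]
    have e0 : s + 2 * ((0 : ℕ) : ℤ) + 2 = s + 2 := by push_cast; ring
    rw [e0, show s + 2 + 2 = s + 2 + 1 + 1 by ring]
    simp only [mul_assoc]
  | succ m ih =>
    intro s
    rw [Pm_rec h s (m + 1), ih, Pm_rec h (s + 2) m]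
    have e0 : s + 2 * ((m + 1 : ℕ) : ℤ) + 2 = s + 2 + 2 * m + 2 := by push_cast; ring
    rw [e0]
    noncomm_ring

theorem nbs_mul_right (u : ℤ → A) (c : A) (m : ℕ) (k : ℤ) :
    nbs (fun k => u k * c) m k = nbs u m k * c := by
  induction m generalizing k with
  | zero => rfl
  | succ m ih => simp only [nbs, nb, ih]; noncomm_ring

theorem nbs_mul_left (u : ℤ → A) (c : A) (m : ℕ) (k : ℤ) :
    nbs (fun k => c * u k) m k = c * nbs u m k := by
  induction m generalizing k with
  | zero => rfl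
  | succ m ih => simp only [nbs, nb, ih]; noncomm_ring

theorem nbs_add (u v : ℤ → A) (m : ℕ) (k : ℤ) :
    nbs (fun k => u k + v k) m k = nbs u m k + nbs v m k := by
  induction m generalizing k with
  | zero => rfl
  | succ m ih => simp only [nbs, nb, ih]; noncomm_ring

theorem nbs_neg (u : ℤ → A) (m : ℕ) (k : ℤ) :
    nbs (fun k => - u k) m k = - nbs u m k := by
  induction m generalizing k with
  | zero => rfl
  | succ m ih => simp only [nbs, nb, ih]; noncomm_ring

theorem nbs_shift (u : ℤ → A) (c : ℤ) (m : ℕ) (k : ℤ) :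
    nbs (fun k => u (k - c)) m k = nbs u m (k - c) := by
  induction m generalizing k with
  | zero => rfl
  | succ m ih =>
    simp only [nbs, nb, ih]
    rw [show k - 1 - c = k - c - 1 by ring]

theorem nbs_fk (t : ℤ → A) (s : ℤ) (m : ℕ) (k : ℤ) :
    nbs (fk t s) m k = nbs t m k * (t (s + 1 + 1) + t (s + 1) + t s) * t s
      + t s * t s * nbs t (m + 1) k := by
  have e : fk t s = fun k => (fun k => t k * ((t (s + 1 + 1) + t (s + 1) + t s) * t s)) k
      + (fun k => (t s * t s) * nb t k) k := by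
    funext k
    simp only [fk, mul_assoc]
  rw [e, nbs_add, nbs_mul_right, nbs_mul_left, nbs_succ']
  simp only [mul_assoc]

theorem nbs_fk_succ {t : ℤ → A} (h : Rel t) (s : ℤ) (m : ℕ) (k : ℤ) :
    nbs (fk t s) (m + 1) k = - (t (s + 1 + 1) * (nbs t m k * t s))
      + - (nbs t m (k - 2) * (t (s + 1) * t s)) := by
  rw [nbs_succ']
  have e : nb (fk t s) = fun k => (fun k => - ((fun k => t (s + 1 + 1) * (t k * t s)) k)) k
      + (fun k => - ((fun k => t (k - 2) * (t (s + 1) * t s)) k)) k := by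
    funext k
    have := fk_step h s (k - 2)
    rw [show k - 2 + 1 + 1 = k by ring] at this
    rw [this]
    simp only [mul_assoc]
    abel
  rw [e, nbs_add, nbs_neg, nbs_neg, nbs_mul_left (fun k => t k * t s), nbs_mul_right,
    nbs_mul_right (fun k => t (k - 2)), nbs_shift]

/-- **The row step of a word of doubled letters with spacing two.** -/
theorem star {t : ℤ → A} (h : Rel t) (m : ℕ) : ∀ s : ℤ,
    Pm t s (m + 1) = W t s m * nbs t m (s + 2 * m + 2) := by
  induction m using Nat.strong_induction_on with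
  | _ m IH =>
  intro s
  cases m with
  | zero =>
    rw [Pm_one, W_zero]
    simp [nbs]
  | succ m =>
    -- the vanishing term
    have hv : W t (s + 2) m * nbs (fk t (s + 2)) m (s + 2 + 2 * m + 2) = 0 := by
      cases m with
      | zero =>
        have e := fk_base h (s + 2)
        have e0 : s + 2 + 2 * ((0 : ℕ) : ℤ) + 2 = s + 2 + 1 + 1 := by push_cast; ring
        rw [e0]
        simp only [nbs]
        rw [e, mul_zero]
      | succ r =>
        rw [nbs_fk_succ h, mul_add, mul_neg, mul_neg]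
        have z1 : W t (s + 2) (r + 1) * (t (s + 2 + 1 + 1)
            * (nbs t r (s + 2 + 2 * ((r + 1 : ℕ) : ℤ) + 2) * t (s + 2))) = 0 := by
          rw [W_right, show s + 2 + 1 + 1 = s + 2 + 2 by ring]
          set y := t (s + 2 + 2)
          have e : W t (s + 2 + 2) r * (y * y) * (y
              * (nbs t r (s + 2 + 2 * ((r + 1 : ℕ) : ℤ) + 2) * t (s + 2)))
              = W t (s + 2 + 2) r * (y * (y * y))
              * (nbs t r (s + 2 + 2 * ((r + 1 : ℕ) : ℤ) + 2) * t (s + 2)) := by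
            simp only [mul_assoc]
          rw [e, h.cube]
          simp
        have z2 : W t (s + 2) (r + 1) * (nbs t r (s + 2 + 2 * ((r + 1 : ℕ) : ℤ) + 2 - 2)
            * (t (s + 2 + 1) * t (s + 2))) = 0 := by
          have e0 : s + 2 + 2 * ((r + 1 : ℕ) : ℤ) + 2 - 2 = s + 2 + 2 * r + 2 := by
            push_cast; ring
          have e1 := IH r (by omega) (s + 2)
          have e2 := cube_Pm h (s + 2) r
          rw [e0, W_succ]
          have e : t (s + 2 + 2 * r + 2) * (t (s + 2 + 2 * r + 2) * W t (s + 2) r)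
              * (nbs t r (s + 2 + 2 * r + 2) * (t (s + 2 + 1) * t (s + 2)))
              = (t (s + 2 + 2 * r + 2) * (t (s + 2 + 2 * r + 2)
                * (W t (s + 2) r * nbs t r (s + 2 + 2 * r + 2)))) * (t (s + 2 + 1) * t (s + 2)) := by
            simp only [mul_assoc]
          rw [e, ← e1, e2, zero_mul]
        rw [z1, z2]
        simp
    rw [Pm_right h, IH m (by omega) (s + 2)]
    rw [nbs_fk, mul_add] at hv
    have hv' : W t (s + 2) m * (nbs t m (s + 2 + 2 * m + 2)
        * (t (s + 2 + 1 + 1) + t (s + 2 + 1) + t (s + 2)) * t (s + 2))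
        = - (W t (s + 2) m * (t (s + 2) * t (s + 2) * nbs t (m + 1) (s + 2 + 2 * m + 2))) :=
      eq_neg_of_add_eq_zero_left hv
    have e3 : W t (s + 2) m * nbs t m (s + 2 + 2 * m + 2)
        * (t (s + 2 + 1 + 1) + t (s + 2 + 1) + t (s + 2)) * t (s + 2)
        = W t (s + 2) m * (nbs t m (s + 2 + 2 * m + 2)
        * (t (s + 2 + 1 + 1) + t (s + 2 + 1) + t (s + 2)) * t (s + 2)) := by
      simp only [mul_assoc]
    rw [e3, hv', neg_neg, W_right]
    have e4 : s + 2 * ((m + 1 : ℕ) : ℤ) + 2 = s + 2 + 2 * m + 2 := by push_cast; ring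
    rw [e4]
    simp only [mul_assoc]

/-! ### Differences at the end of a word -/

theorem I_sub (t : ℤ → A) (a k : ℤ) : I t a k - I t a (k - 1) = t k := by
  unfold I
  rw [show k - 1 + 1 = k by ring]
  split_ifs with h1 h2 h2
  · have e : (k + 1 - a).toNat = (k - a).toNat + 1 := by omega
    rw [e, S, show a + ((k - a).toNat : ℤ) = k by omega]
    abel
  · have e1 : (k + 1 - a).toNat = 0 := by omega
    have e2 : (a - 1 - (k - 1)).toNat = 1 := by omega
    rw [e1, e2]
    simp [S]
  · omega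
  · have e : (a - 1 - (k - 1)).toNat = (a - 1 - k).toNat + 1 := by omega
    rw [e, S_succ_left]
    abel

/-- The difference of the row step in the last letter. -/
theorem D_snoc_sub (t : ℤ → A) : ∀ (w : List ℤ) (k : ℤ),
    D t (w ++ [k]) - D t (w ++ [k - 1]) = D t w * t k
  | [], k => by simp [D]
  | [y], k => by
    simp only [List.cons_append, List.nil_append, D]
    rw [← I_sub t y k]
    noncomm_ring
  | a :: b :: w, k => by
    have h1 := D_snoc_sub t (b :: w) k
    have h2 := D_snoc_sub t w k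
    simp only [List.cons_append, D] at h1 ⊢
    rw [sub_mul, mul_assoc, ← h1]
    rw [show t b * (t b * D t w) * t k = t b * (t b * (D t w * t k)) by
      simp only [mul_assoc], ← h2]
    noncomm_ring

/-- The row step of the reversed row `2n+1, 2n, …, 1`. -/
def dn : ℕ → List ℤ
  | 0 => [1]
  | n + 1 => (2 * (n : ℤ) + 3) :: (2 * (n : ℤ) + 2) :: dn n

theorem D_dn (t : ℤ → A) (n : ℕ) : D t (dn n) = (-1) ^ n * W t 0 n := by
  have hI : ∀ x : ℤ, I t (x + 1) x = 0 := fun x => I_pred t x
  induction n with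
  | zero => simp [dn, D, W_zero]
  | succ n ih =>
    have e : dn (n + 1) = (2 * (n : ℤ) + 2 + 1) :: (2 * (n : ℤ) + 2) :: dn n := by
      rw [dn]; congr 1
    rw [e, D, hI, ih, W_succ, zero_add, pow_succ]
    have hc : ∀ X : A, X * (-1) ^ n = (-1) ^ n * X := by
      intro X
      rcases Nat.even_or_odd n with h | h
      · rw [h.neg_one_pow]; simp
      · rw [h.neg_one_pow]; simp
    rw [← mul_assoc (t (2 * (n : ℤ) + 2)) ((-1) ^ n), hc, zero_mul]
    rw [mul_assoc ((-1) ^ n) (t _) (W t 0 n), ← mul_assoc (t _) ((-1) ^ n), hc]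
    noncomm_ring

/-! ### Evaluation -/

open Pool.Agent.X287.MTFun Pool.Agent.X287.MTAl

/-- The monotone triangle function as an element of the module. -/
noncomputable def F0 : M := ⟨F, F_ctx⟩

/-- The value at the empty word. -/
noncomputable def ev (X : Module.End ℤ M) : ℤ := (X F0 : M).1 []

theorem ev_sub (X Y : Module.End ℤ M) : ev (X - Y) = ev X - ev Y := rfl

theorem ev_neg (X : Module.End ℤ M) : ev (-X) = - ev X := rfl

theorem ev_word (l : List ℤ) : ev ((l.map T).prod) = F l := by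
  unfold ev
  have e := prod_coe l F0
  change ((((l.map T).prod F0 : M) : List ℤ → ℤ)) [] = F l
  rw [e, prod_apply]
  rfl

theorem ev_D (l : List ℤ) (hl : l ≠ []) : ev (D T l) = F l := by
  unfold ev
  have e := D_coe l F0
  change (((D T l F0 : M) : List ℤ → ℤ)) [] = F l
  rw [e, F_row l hl]
  rfl

theorem ev_nb : ∀ (ks u : List ℤ), u ≠ [] →
    ev ((u.map T).prod * (ks.map (nb T)).prod) = ev (D T u * (ks.map T).prod) := by
  intro ks
  induction ks with
  | nil =>
    intro u hu
    simp only [List.map_nil, List.prod_nil, mul_one]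
    rw [ev_word, ev_D u hu]
  | cons k ks ih =>
    intro u hu
    have h1 := ih (u ++ [k]) (by simp)
    have h2 := ih (u ++ [k - 1]) (by simp)
    have e1 : (u.map T).prod * ((k :: ks).map (nb T)).prod
        = ((u ++ [k]).map T).prod * (ks.map (nb T)).prod
          - ((u ++ [k - 1]).map T).prod * (ks.map (nb T)).prod := by
      simp only [List.map_cons, List.prod_cons, List.map_append, List.prod_append, List.map_nil,
        List.prod_nil, mul_one, nb]
      noncomm_ring
    have e2 : D T u * ((k :: ks).map T).prod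
        = D T (u ++ [k]) * (ks.map T).prod - D T (u ++ [k - 1]) * (ks.map T).prod := by
      rw [← sub_mul, D_snoc_sub]
      simp only [List.map_cons, List.prod_cons, mul_assoc]
    rw [e1, e2, ev_sub, ev_sub, h1, h2]

theorem ev_lift {s t : ℤ → Module.End ℤ M} : ∀ (ks : List ℤ) (X Y : Module.End ℤ M),
    (∀ ks : List ℤ, ev (X * (ks.map s).prod) = ev (Y * (ks.map t).prod)) →
    ev (X * (ks.map (nb s)).prod) = ev (Y * (ks.map (nb t)).prod) := by
  intro ks
  induction ks with
  | nil => intro X Y h; exact h []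
  | cons k ks ih =>
    intro X Y h
    have h1 := ih (X * nb s k) (Y * nb t k) (by
      intro ks'
      have e1 := h (k :: ks')
      have e2 := h ((k - 1) :: ks')
      simp only [List.map_cons, List.prod_cons] at e1 e2
      have f1 : X * nb s k * (ks'.map s).prod
          = X * (s k * (ks'.map s).prod) - X * (s (k - 1) * (ks'.map s).prod) := by
        unfold nb; noncomm_ring
      have f2 : Y * nb t k * (ks'.map t).prod
          = Y * (t k * (ks'.map t).prod) - Y * (t (k - 1) * (ks'.map t).prod) := by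
        unfold nb; noncomm_ring
      rw [f1, f2, ev_sub, ev_sub, e1, e2])
    simp only [List.map_cons, List.prod_cons]
    rw [← mul_assoc, ← mul_assoc]
    exact h1

theorem ev_nbs (m : ℕ) (u : List ℤ) (hu : u ≠ []) : ∀ ks : List ℤ,
    ev ((u.map T).prod * (ks.map (nbs T (m + 1))).prod)
      = ev (D T u * (ks.map (nbs T m)).prod) := by
  induction m with
  | zero => intro ks; exact ev_nb ks u hu
  | succ m ih =>
    intro ks
    exact ev_lift ks _ _ ih

/-- The letters `a, a+2, …` (`r` letters). -/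
def tl (a : ℤ) : ℕ → List ℤ
  | 0 => []
  | r + 1 => a :: tl (a + 2) r

theorem ev_step (m r : ℕ) :
    ev (W T 0 (m + 1) * ((tl (2 * ((m + 1 : ℕ) : ℤ) + 2) r).map (nbs T (m + 1))).prod)
      = ev (W T 0 m * ((tl (2 * (m : ℤ) + 2) (r + 1)).map (nbs T m)).prod) := by
  rw [W, ev_nbs m (wd 0 (m + 1)) (by simp [wd])]
  have h := star T_rel m 0
  unfold Pm at h
  rw [h, tl, List.map_cons, List.prod_cons]
  have e1 : (0 : ℤ) + 2 * m + 2 = 2 * m + 2 := by ring
  have e2 : 2 * (m : ℤ) + 2 + 2 = 2 * ((m + 1 : ℕ) : ℤ) + 2 := by push_cast; ring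
  rw [e1, e2]
  simp only [mul_assoc]

theorem ev_chain (m : ℕ) : ∀ r : ℕ,
    ev (W T 0 m * ((tl (2 * (m : ℤ) + 2) r).map (nbs T m)).prod) = F (tl 2 (m + r)) := by
  induction m with
  | zero =>
    intro r
    rw [W_zero, one_mul]
    have e : 2 * ((0 : ℕ) : ℤ) + 2 = 2 := by simp
    rw [e, zero_add]
    exact ev_word _
  | succ m ih =>
    intro r
    rw [ev_step, ih]
    congr 2
    ring

/-- **The duplicated even row.** -/
theorem F_wd (n : ℕ) : F (wd 0 n) = F (tl 2 n) := by
  have h := ev_chain n 0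
  simp only [tl, List.map_nil, List.prod_nil, mul_one, add_zero] at h
  rw [← h, W, ev_word]

/-- **The reversed row.** -/
theorem F_dn (n : ℕ) : F (dn n) = (-1) ^ n * F (tl 2 n) := by
  have hne : dn n ≠ [] := by cases n <;> simp [dn]
  rw [← ev_D (dn n) hne, D_dn, ← F_wd, ← ev_word (wd 0 n)]
  change ev ((-1) ^ n * ((wd 0 n).map T).prod) = _
  rcases Nat.even_or_odd n with h | h
  · rw [h.neg_one_pow, h.neg_one_pow]; simp
  · rw [h.neg_one_pow, h.neg_one_pow]; simp [ev_neg]

end Pool.Agent.X144.MTStar
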