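import Pool.Agent.X144.MT.Star

/-!
# The duplicated even row and the reversed row: polynomial form
-/

namespace Pool.Agent.X144.MTStar

open MvPolynomial Pool.Agent.X144.MT Pool.Agent.X287.MTAl

/-- The entry number `t` (counted from `0`) of the row `2, 4, 6, …`. -/
def evenRow (t : ℕ) : ℤ := 2 * ((t : ℤ) + 1)

/-- The entry number `t` (counted from `0`) of the row `2n, 2n, 2n-2, 2n-2, …, 2, 2`. -/
def dupRow (n t : ℕ) : ℤ := 2 * ((n : ℤ) - (t / 2 : ℕ))

/-- The entry number `t` (counted from `0`) of the row `2n+1, 2n, …, 2, 1`. -/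
def revRow (n t : ℕ) : ℤ := 2 * (n : ℤ) + 1 - t

theorem tl_length (r : ℕ) : ∀ a, (tl a r).length = r := by
  induction r with
  | zero => intro a; rfl
  | succ r ih => intro a; simp [tl, ih]

theorem wd_length (m : ℕ) (s : ℤ) : (wd s m).length = 2 * m := by
  induction m with
  | zero => rfl
  | succ m ih => simp [wd, ih]; ring

theorem dn_length (n : ℕ) : (dn n).length = 2 * n + 1 := by
  induction n with
  | zero => rfl
  | succ n ih => simp [dn, ih]; ring

theorem ofFn_tl (r : ℕ) : ∀ a : ℤ, List.ofFn (fun t : Fin r => a + 2 * ((t : ℕ) : ℤ)) = tl a r := by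
  induction r with
  | zero => intro a; rfl
  | succ r ih =>
    intro a
    rw [List.ofFn_succ, tl, ← ih (a + 2)]
    congr 1
    · simp
    · congr 1
      funext t
      simp only [Fin.val_succ]
      push_cast
      ring

theorem ofFn_evenRow (n : ℕ) : List.ofFn (fun t : Fin n => evenRow t) = tl 2 n := by
  rw [← ofFn_tl]
  congr 1
  funext t
  simp only [evenRow]
  ring

theorem ofFn_dupRow (n : ℕ) : List.ofFn (fun t : Fin (2 * n) => dupRow n t) = wd 0 n := by
  induction n with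
  | zero => rfl
  | succ n ih =>
    have e : List.ofFn (fun t : Fin (2 * (n + 1)) => dupRow (n + 1) t)
        = List.ofFn (fun t : Fin (2 * n + 1 + 1) => dupRow (n + 1) t) := rfl
    rw [e, List.ofFn_succ, List.ofFn_succ, wd, ← ih]
    congr 1
    · simp [dupRow]; ring
    · congr 1
      · simp [dupRow]; ring
      · congr 1
        funext t
        simp only [dupRow, Fin.val_succ]
        have : ((t : ℕ) + 1 + 1) / 2 = (t : ℕ) / 2 + 1 := by omega
        rw [this]
        push_cast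
        ring

theorem ofFn_revRow (n : ℕ) : List.ofFn (fun t : Fin (2 * n + 1) => revRow n t) = dn n := by
  induction n with
  | zero => simp [revRow, dn]
  | succ n ih =>
    have e : List.ofFn (fun t : Fin (2 * (n + 1) + 1) => revRow (n + 1) t)
        = List.ofFn (fun t : Fin (2 * n + 1 + 1 + 1) => revRow (n + 1) t) := rfl
    rw [e, List.ofFn_succ, List.ofFn_succ, dn, ← ih]
    refine List.cons_eq_cons.2 ⟨?_, List.cons_eq_cons.2 ⟨?_, ?_⟩⟩
    · simp only [revRow, Fin.val_zero]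
      push_cast
      ring
    · simp only [revRow, Fin.val_succ, Fin.val_zero]
      push_cast
      ring
    · congr 1
      funext t
      simp only [revRow, Fin.val_succ]
      push_cast
      ring

/-- `α(2n; 2n, 2n, …, 2, 2) = α(n; 2, 4, …, 2n)`. -/
theorem eval_dupRow (n : ℕ) (hn : 1 ≤ n) (P : MvPolynomial (Fin n) ℚ)
    (Q : MvPolynomial (Fin (2 * n)) ℚ) (hP : IsAlpha P) (hQ : IsAlpha Q) :
    eval (fun t : Fin (2 * n) => (dupRow n t : ℚ)) Q
      = eval (fun t : Fin n => (evenRow t : ℚ)) P := by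
  obtain ⟨m, rfl⟩ : ∃ m, n = m + 1 := ⟨n - 1, by omega⟩
  have h1 := hP.eval_eq (fun t : Fin (m + 1) => evenRow t)
  have h2 := IsAlpha.eval_eq (n := 2 * m + 1) (P := Q) hQ
    (fun t : Fin (2 * m + 1 + 1) => dupRow (m + 1) t)
  have e2 : List.ofFn (fun t : Fin (2 * m + 1 + 1) => dupRow (m + 1) t) = wd 0 (m + 1) :=
    ofFn_dupRow (m + 1)
  rw [ofFn_evenRow] at h1
  rw [e2] at h2
  have h3 := F_wd (m + 1)
  unfold F at h3
  rw [wd_length, tl_length] at h3
  rw [h1]
  refine h2.trans ?_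
  have h4 : al (2 * m + 1 + 1) (wd 0 (m + 1)) = al (m + 1) (tl 2 (m + 1)) := h3
  rw [h4]

/-- `α(2n+1; 2n+1, 2n, …, 2, 1) = (-1)^n α(n; 2, 4, …, 2n)`. -/
theorem eval_revRow (n : ℕ) (hn : 1 ≤ n) (P : MvPolynomial (Fin n) ℚ)
    (Q : MvPolynomial (Fin (2 * n + 1)) ℚ) (hP : IsAlpha P) (hQ : IsAlpha Q) :
    eval (fun t : Fin (2 * n + 1) => (revRow n t : ℚ)) Q
      = (-1) ^ n * eval (fun t : Fin n => (evenRow t : ℚ)) P := by
  obtain ⟨m, rfl⟩ : ∃ m, n = m + 1 := ⟨n - 1, by omega⟩
  have h1 := hP.eval_eq (fun t : Fin (m + 1) => evenRow t)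
  have h2 := hQ.eval_eq (fun t : Fin (2 * (m + 1) + 1) => revRow (m + 1) t)
  rw [ofFn_evenRow] at h1
  rw [ofFn_revRow] at h2
  have h3 := F_dn (m + 1)
  unfold F at h3
  rw [dn_length, tl_length] at h3
  rw [h1, h2, h3]
  push_cast
  ring

end Pool.Agent.X144.MTStar
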